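import Mathlib
import Pool.Agent.Hhelper85.TateDefs

/-!
# Definitions: Euler products of hyperelliptic curves over arithmetic schemes, the families
-/

namespace Pool.Agent.HypTate

open Polynomial Pool.Agent.TateBSD

/-! ### The Euler product `Φ₁` of `y² = f(x)` over an affine base -/

section Euler

variable {R : Type*} [CommRing R]

/-- An algebraic closure `Ω` of the residue field at `m`. -/
noncomputable abbrev Om (m : MaximalSpectrum R) : Type _ :=
  @AlgebraicClosure (R ⧸ m.asIdeal) (Ideal.Quotient.field m.asIdeal)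

/-- The number of solutions of `y² = f(x)` in the subfield with `q_y ^ j` elements of `Ω`. -/
noncomputable def numPts (f : R[X]) (m : MaximalSpectrum R) (j : ℕ) : ℕ :=
  letI := Ideal.Quotient.field m.asIdeal
  Nat.card {P : Om m × Om m // P.1 ^ (qy m ^ j) = P.1 ∧ P.2 ^ (qy m ^ j) = P.2 ∧
    P.2 ^ 2 = ((f.map (Ideal.Quotient.mk m.asIdeal)).map
      (algebraMap (R ⧸ m.asIdeal) (Om m))).eval P.1}

/-- The local factor `P_{y,1}(q_y^{-s})⁻¹` of the curve `y² = f(x)` (with one point at infinity),
written as `exp (∑_{j ≥ 1} (q_y^j - N_j) q_y^{-js} / j)`, `N_j` the number of affine points over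
the extension of degree `j`. -/
noncomputable def localFactor (f : R[X]) (m : MaximalSpectrum R) (s : ℂ) : ℂ :=
  Complex.exp (∑' j : ℕ, ((qy m : ℂ) ^ (j + 1) - numPts f m (j + 1)) *
    ((qy m : ℂ) ^ (-s)) ^ (j + 1) / ((j + 1 : ℕ) : ℂ))

end Euler

/-! ### The family `y² = f₀(x) + u x + v` with marked points -/

/-- A commutative ring with a polynomial `f`, thought of as the curve `y² = f(x)`. -/
structure HypRing where
  /-- the ring -/
  R : Type
  /-- its ring structure -/
  [ring : CommRing R]
  /-- the polynomial -/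
  f : R[X]

attribute [instance] HypRing.ring

/-- Adjoin an (affine) point of the curve: the new ring is the affine coordinate ring
`R[x, y] / (y² - f(x))`, here `R[x] ⊕ R[x] y`. -/
noncomputable def HypRing.adjoinPoint (S : HypRing) : HypRing where
  R := QuadraticAlgebra S.R[X] S.f 0
  f := S.f.map ((algebraMap S.R[X] (QuadraticAlgebra S.R[X] S.f 0)).comp C)

/-- The polynomial `f₀(x) + u x + v` over `R₀[u, v]`. -/
noncomputable def famPoly {R₀ : Type} [CommRing R₀] (f₀ : R₀[X]) : (MvPolynomial (Fin 2) R₀)[X] :=
  f₀.map MvPolynomial.C + C (MvPolynomial.X 0) * X + C (MvPolynomial.X 1)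

/-- The base `R₀[u, v, 1 / Res(F, F')]` of the family `F = f₀(x) + u x + v`. -/
noncomputable def famBase {R₀ : Type} [CommRing R₀] (f₀ : R₀[X]) : HypRing where
  R := Localization.Away (resultant (famPoly f₀) (derivative (famPoly f₀)))
  f := (famPoly f₀).map (algebraMap (MvPolynomial (Fin 2) R₀) (Localization.Away
    (resultant (famPoly f₀) (derivative (famPoly f₀)))))

/-- The base of the family with `r` marked points: the coordinate ring of the `r`-fold
fibre power of the affine curve `y² = f₀(x) + u x + v` over `R₀[u, v, 1 / Res(F, F')]`. -/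
noncomputable def fam {R₀ : Type} [CommRing R₀] (f₀ : R₀[X]) (r : ℕ) : HypRing :=
  HypRing.adjoinPoint^[r] (famBase f₀)

/-- The polynomial ring `ℤ[1/N][t_1, …, t_l]`. -/
def PolyZN (N l : ℕ) : Type := MvPolynomial (Fin l) (Localization.Away (N : ℤ))

noncomputable instance (N l : ℕ) : CommRing (PolyZN N l) :=
  inferInstanceAs (CommRing (MvPolynomial (Fin l) (Localization.Away (N : ℤ))))

end Pool.Agent.HypTate
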