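import Mathlib
import Pool.Agent.HypJac.TDefs
import Pool.Agent.Hhelper85.BaseZeta

/-!
# The Euler product of a hyperelliptic curve as the exponential of a sum over points

PROOF. `numPts_eq`: `h = ⟨(p, a), φ⟩`, `a = dm m * j` (`pt_data`), `GF p a` has `q_m^j` elements; `φ` induces `R/m → GF p a`, so `GF p a` embeds in `Ω` over `R/m` (algebraic extension, `IsAlgClosed.lift`), with image exactly `{x | x^(q_m^j) = x}`
(`q_m^j` roots of `X^(q^j) - X`, `FiniteField.pow_card`, cardinality). `euler_prod`: as in Hhelper85/Euler.lean and BaseZeta.lean: `vJ f s h = (q^j - N_j) * uC s (m, j) / dm m` on the fibre of `kap'` over `(m, j)`, the fibre has `dm m` elements (`card_fiber`),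
`HasSum.sigma` over `kap'`, then `HasSum.prod_fiberwise` over `m` gives `HasSum (fun m => ∑_j ...) (∑' vJ)`, `HasSum.cexp`; the `j = 0` terms vanish (`uC s (m,0) = 0`), shift the index to match `localFactor`.
-/

namespace Pool.Agent.HypJac

open Polynomial Pool.Agent.HypTate Pool.Agent.TateBSD Pool.Agent.Hhelper85

/-- The number of affine points. -/
noncomputable def affC {K : Type*} [Field K] (f : K[X]) : ℕ :=
  Nat.card {P : K × K // P.2 ^ 2 = f.eval P.1}

local instance he_primeFact (p : Nat.Primes) : Fact (p : ℕ).Prime := ⟨p.2⟩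

section aux

/-- A finite field `L` embedded in an algebraically closed field is the set of the roots of
`X ^ #L - X`. -/
lemma he_range {L W : Type*} [Field L] [Finite L] [Field W] (i : L →+* W) (x : W) :
    x ^ Nat.card L = x ↔ ∃ y, i y = x := by
  classical
  have := Fintype.ofFinite L
  have hQ : 1 < Nat.card L := Finite.one_lt_card
  constructor
  · intro hx
    have hne : (X ^ Nat.card L - X : W[X]) ≠ 0 := FiniteField.X_pow_card_sub_X_ne_zero W hQ
    have hdeg : (X ^ Nat.card L - X : W[X]).natDegree = Nat.card L :=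
      FiniteField.X_pow_card_sub_X_natDegree_eq W hQ
    have hsub : Finset.univ.image i ⊆ (X ^ Nat.card L - X : W[X]).roots.toFinset := by
      intro y hy
      obtain ⟨z, -, rfl⟩ := Finset.mem_image.1 hy
      rw [Multiset.mem_toFinset, mem_roots hne, IsRoot.def, eval_sub, eval_pow, eval_X,
        ← map_pow, Nat.card_eq_fintype_card, FiniteField.pow_card, sub_self]
    have hcard : (X ^ Nat.card L - X : W[X]).roots.toFinset.card ≤ (Finset.univ.image i).card := by
      rw [Finset.card_image_of_injective _ i.injective, Finset.card_univ,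
        ← Nat.card_eq_fintype_card]
      refine (Multiset.toFinset_card_le _).trans ((card_roots' _).trans ?_)
      rw [hdeg]
    have heq := Finset.eq_of_subset_of_card_le hsub hcard
    have hx' : x ∈ (X ^ Nat.card L - X : W[X]).roots.toFinset := by
      rw [Multiset.mem_toFinset, mem_roots hne, IsRoot.def, eval_sub, eval_pow, eval_X, hx,
        sub_self]
    rw [← heq] at hx'
    obtain ⟨z, -, hz⟩ := Finset.mem_image.1 hx'
    exact ⟨z, hz⟩
  · rintro ⟨y, rfl⟩
    rw [← map_pow, Nat.card_eq_fintype_card, FiniteField.pow_card]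

lemma he_card {k W L : Type*} [Field k] [Field W] [IsAlgClosed W] [Algebra k W] [Field L]
    [Finite L] (ψ : k →+* L) (g : k[X]) :
    Nat.card {P : W × W // P.1 ^ Nat.card L = P.1 ∧ P.2 ^ Nat.card L = P.2 ∧
      P.2 ^ 2 = (g.map (algebraMap k W)).eval P.1} = affC (g.map ψ) := by
  let _ := ψ.toAlgebra
  have hfin : Module.Finite k L := Module.Finite.of_finite
  have halg : Algebra.IsAlgebraic k L := Algebra.IsAlgebraic.of_finite k L
  let i : L →ₐ[k] W := IsAlgClosed.lift
  have hi : ∀ y : L, (g.map (algebraMap k W)).eval (i y) = i ((g.map ψ).eval y) := by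
    intro y
    have h1 : (g.map (algebraMap k W)).eval (i y) = aeval (i y) g := by
      rw [aeval_def, eval_map]
    have h2 : (g.map ψ).eval y = aeval y g := by
      rw [aeval_def, eval_map]
      rfl
    rw [h1, h2, aeval_algHom_apply]
  unfold affC
  symm
  refine Nat.card_congr (Equiv.ofBijective (fun P => ⟨(i P.1.1, i P.1.2), ?_, ?_, ?_⟩) ⟨?_, ?_⟩)
  · exact (he_range (i : L →+* W) _).2 ⟨_, rfl⟩
  · exact (he_range (i : L →+* W) _).2 ⟨_, rfl⟩
  · show i P.1.2 ^ 2 = _
    rw [hi, ← P.2, map_pow]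
  · rintro ⟨⟨x, y⟩, h⟩ ⟨⟨x', y'⟩, h'⟩ hh
    simp only [Subtype.mk.injEq, Prod.mk.injEq] at hh ⊢
    exact ⟨i.injective hh.1, i.injective hh.2⟩
  · rintro ⟨⟨x, y⟩, h1, h2, h3⟩
    obtain ⟨x', rfl⟩ := (he_range (i : L →+* W) _).1 h1
    obtain ⟨y', rfl⟩ := (he_range (i : L →+* W) _).1 h2
    refine ⟨⟨(x', y'), ?_⟩, rfl⟩
    apply i.injective
    show i (y' ^ 2) = i ((g.map ψ).eval x')
    rw [map_pow, ← hi]
    exact h3

end aux

variable {R : Type*} [CommRing R] [Algebra.FiniteType ℤ R] (f : R[X])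

/-- The summand at a point with values in the field with `p ^ n` elements. -/
noncomputable def vJ (s : ℂ) (h : PtsAll R) : ℂ :=
  (((h.1.1 : ℕ) : ℂ) ^ h.1.2 - affC (f.map h.2)) * pw s h.1

/-- The number of points over the extension of degree `j` of the residue field. -/
theorem numPts_eq {h : PtsAll R} {m : MaximalSpectrum R} {j : ℕ} (hh : kap' h = (m, j))
    (hj : j ≠ 0) : numPts f m j = affC (f.map h.2) := by
  obtain ⟨e1, e2⟩ := pt_data hh hj
  obtain ⟨⟨p, n⟩, φ⟩ := h
  simp only at e1 e2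
  have hm : kerM φ = m := congrArg Prod.fst hh
  have := m.isMaximal
  let _ := Ideal.Quotient.field m.asIdeal
  have hle : ∀ a ∈ m.asIdeal, φ a = 0 := by
    intro a ha
    have : a ∈ (kerM φ).asIdeal := by rw [hm]; exact ha
    exact this
  have hn : n ≠ 0 := by
    rw [e2]
    exact mul_ne_zero (dm_ne m) hj
  have hcard : Nat.card (GF p n) = qy m ^ j := by
    rw [GaloisField.card _ _ hn, qy, card_quot, ← pow_mul, ← e2, e1]
  have h1 := he_card (W := Om m) (Ideal.Quotient.lift m.asIdeal φ hle : R ⧸ m.asIdeal →+* GF p n)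
    (f.map (Ideal.Quotient.mk m.asIdeal))
  have h2 : (f.map (Ideal.Quotient.mk m.asIdeal)).map
      (Ideal.Quotient.lift m.asIdeal φ hle : R ⧸ m.asIdeal →+* GF p n) = f.map φ := by
    rw [Polynomial.map_map, Ideal.Quotient.lift_comp_mk]
  rw [hcard, h2] at h1
  exact h1

/-- The value at a pair. -/
noncomputable def uJ (s : ℂ) (i : MaximalSpectrum R × ℕ) : ℂ :=
  ((qy i.1 : ℂ) ^ i.2 - numPts f i.1 i.2) * uC s i

lemma vJ_fiber (s : ℂ) {h : PtsAll R} {m : MaximalSpectrum R} {j : ℕ} (hh : kap' h = (m, j))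
    (hj : j ≠ 0) : vJ f s h = uJ f s (m, j) / dm m := by
  obtain ⟨e1, e2⟩ := pt_data hh hj
  rw [vJ, uJ, pw_fiber s hh hj, ← numPts_eq f hh hj, mul_div_assoc]
  have h3 : ((h.1.1 : ℕ) : ℂ) ^ h.1.2 = (qy m : ℂ) ^ j := by
    rw [e1, e2, qy, card_quot, Nat.cast_pow, ← pow_mul]
  rw [h3]

lemma hasSum_vJ_fiber (s : ℂ) (i : MaximalSpectrum R × ℕ) :
    HasSum (fun h : {h : PtsAll R // kap' h = i} => vJ f s h.1) (uJ f s i) := by
  obtain ⟨m, j⟩ := i
  by_cases hj : j = 0
  · subst hj
    have h0 : uJ f s (m, 0) = 0 := by simp [uJ, uC]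
    rw [h0]
    have h1 : ∀ h : {h : PtsAll R // kap' h = (m, 0)}, vJ f s h.1 = 0 := by
      rintro ⟨h, hh⟩
      have h4 : pw s h.1 = 0 := by
        rw [pw, pt_zero hh]
        simp
      rw [vJ, h4, mul_zero]
    simp only [h1]
    exact hasSum_zero
  · have h1 : ∀ h : {h : PtsAll R // kap' h = (m, j)}, vJ f s h.1 = uJ f s (m, j) / dm m :=
      fun h => vJ_fiber f s h.2 hj
    simp only [h1]
    exact hasSum_fiber_const m hj _

lemma hasSum_uJ {s : ℂ} (hsum : Summable (vJ f s)) : HasSum (uJ f s) (∑' h, vJ f s h) := by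
  have h1 := (Equiv.sigmaFiberEquiv (kap' (R := R))).hasSum_iff.2 hsum.hasSum
  exact h1.sigma (fun i => hasSum_vJ_fiber f s i)

/-- The Euler product as the exponential of the sum over all points. -/
theorem euler_prod {s : ℂ} (hsum : Summable (vJ f s)) :
    HasProd (fun m : MaximalSpectrum R => localFactor f m s)
      (Complex.exp (∑' h, vJ f s h)) := by
  have h1 := hasSum_uJ f hsum
  have h2 : ∀ m : MaximalSpectrum R, Summable (fun j : ℕ => uJ f s (m, j)) :=
    fun m => h1.summable.prod_factor m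
  have h3 := (h1.prod_fiberwise (fun m => (h2 m).hasSum)).cexp
  convert h3 using 1
  ext m
  simp only [Function.comp_apply, HypTate.localFactor]
  congr 1
  rw [(h2 m).tsum_eq_zero_add]
  have h0 : uJ f s (m, 0) = 0 := by simp [uJ, uC]
  rw [h0, zero_add]
  apply tsum_congr
  intro j
  rw [uJ, uC, mul_div_assoc]

end Pool.Agent.HypJac
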