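import Mathlib

/-!
# Points of `y² = f(x)` over a finite field: definitions
-/

namespace Pool.Agent.HypJac

open Polynomial

section defs

variable {K : Type*} [Field K] [Fintype K] [DecidableEq K]

/-- The number of solutions of `y² = f(x)`. -/
def affN (f : K[X]) : ℕ := (Finset.univ.filter fun P : K × K => P.2 ^ 2 = f.eval P.1).card

/-- The trace of Frobenius `q - #{y² = f(x)}`. -/
def trN (f : K[X]) : ℤ := Fintype.card K - affN f

/-- The member `f₀ + u x + v` of the family. -/
noncomputable def famF {K : Type*} [CommRing K] (f₀ : K[X]) (t : K × K) : K[X] :=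
  f₀ + C t.1 * X + C t.2

/-- The parameters of the separable members of the family. -/
noncomputable def goodT (f₀ : K[X]) : Finset (K × K) := by
  classical
  exact Finset.univ.filter fun t => IsCoprime (famF f₀ t) (derivative (famF f₀ t))

/-- The constant in the Weil bound. -/
def WC (n : ℕ) : ℕ := 64 * n

/-- The constant in the error term of the moment. -/
def CM (n r : ℕ) : ℕ := n * WC n + r * (1 + n * WC n ^ 2) + WC n * (1 + WC n) ^ r

end defs

end Pool.Agent.HypJac
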