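import Mathlib
import Pool.Agent.HypJac.TDefs
import Pool.Agent.HypJac.MomDefs
import Pool.Agent.Hhelper85.Euler

/-!
# Points of the tower with values in a finite field

PROOF. `ft_fam`: `MvPolynomial (Fin 2) R₀`, its localisation away from an element, and `QuadraticAlgebra S[X] f 0` (finite over `S[X]`) are of finite type (see Hhelper85/TowerSum.lean, section ft). `sum_fam`: induction on `r` as in
Hhelper85/HomCount.lean, TowerSum.lean: homomorphisms `QuadraticAlgebra S.R[X] S.f 0 → K` are pairs (homomorphism `ψ : S.R → K`, `(x,y) ∈ K²` with `y² = (S.f.map ψ)(x)`), and `(S.adjoinPoint.f).map` of it is `S.f.map ψ`; homomorphisms `MvPolynomial (Fin 2) R₀ → K` are pairs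
(`φ : R₀ → K`, `(u, v) ∈ K²`), `famPoly f₀` goes to `famF (f₀.map φ) (u, v)`, and it extends to the localisation (uniquely) iff the image of the resultant is a unit iff `IsCoprime F F'`, `F = famF (f₀.map φ) (u, v)` (`isUnit_resultant_iff_isCoprime`, `resultant_map_map`;
careful with `natDegree` of the derivative: `resultant` takes the degrees as default arguments; `famPoly f₀` is monic of degree `n`, `derivative (famPoly f₀)` has some degree `n' ≤ n - 1` - use `resultant_map_map` with explicit degrees and `resultant_add_right_deg` or similar (for monic `F` the resultant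
`Res_{n,m}(F, G)` does not depend on `m ≥ deg G`). If `K` has no homomorphism from `R₀` both sides are `0`.)
-/

set_option linter.unusedSectionVars false

namespace Pool.Agent.HypJac

open Polynomial Pool.Agent.HypTate

section ft

lemma hs_ft_trans {A B : Type*} [CommRing A] [CommRing B] [Algebra A B]
    (h1 : Algebra.FiniteType ℤ A) (h2 : Algebra.FiniteType A B) : Algebra.FiniteType ℤ B :=
  Algebra.FiniteType.trans h1 h2

lemma hs_ft_base {R₀ : Type} [CommRing R₀] (h : Algebra.FiniteType ℤ R₀) (f₀ : R₀[X]) :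
    Algebra.FiniteType ℤ (famBase f₀).R := by
  have h0 : @Algebra.FiniteType ℤ (MvPolynomial (Fin 2) R₀) _ _ (Ring.toIntAlgebra _) :=
    hs_ft_trans (A := R₀) (B := MvPolynomial (Fin 2) R₀) h inferInstance
  exact hs_ft_trans (A := MvPolynomial (Fin 2) R₀) (B := Localization.Away
    (resultant (famPoly f₀) (derivative (famPoly f₀)))) h0
    inferInstance

lemma hs_ft_adjoin (S : HypRing) (h : Algebra.FiniteType ℤ S.R) :
    Algebra.FiniteType ℤ S.adjoinPoint.R := by
  have h1 : @Algebra.FiniteType ℤ S.R[X] _ _ (Ring.toIntAlgebra _) :=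
    hs_ft_trans (A := S.R) (B := S.R[X]) h inferInstance
  exact hs_ft_trans (A := S.R[X]) (B := QuadraticAlgebra S.R[X] S.f 0) h1 inferInstance

end ft

lemma fam_succ {R₀ : Type} [CommRing R₀] (f₀ : R₀[X]) (r : ℕ) :
    fam f₀ (r + 1) = (fam f₀ r).adjoinPoint := by
  unfold fam
  rw [Function.iterate_succ_apply']

instance ft_fam {R₀ : Type} [CommRing R₀] [Algebra.FiniteType ℤ R₀] (f₀ : R₀[X]) (r : ℕ) :
    Algebra.FiniteType ℤ (fam f₀ r).R := by
  induction r with
  | zero => exact hs_ft_base ‹_› f₀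
  | succ r ih =>
    rw [fam_succ]
    exact hs_ft_adjoin _ ih

section adjoin

variable {R : Type*} [CommRing R] {T : Type*} [CommRing T]

/-- Homomorphisms out of `R[x,y]/(y² - f)`. -/
noncomputable def hsLift (f : R[X]) (ψ : R →+* T) (x y : T) (h : y ^ 2 = (f.map ψ).eval x) :
    QuadraticAlgebra R[X] f 0 →+* T where
  toFun a := a.re.eval₂ ψ x + a.im.eval₂ ψ x * y
  map_one' := by simp [QuadraticAlgebra.re_one, QuadraticAlgebra.im_one]
  map_zero' := by simp
  map_add' a b := by
    simp only [QuadraticAlgebra.re_add, QuadraticAlgebra.im_add, eval₂_add]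
    ring
  map_mul' a b := by
    rw [eval_map] at h
    simp only [QuadraticAlgebra.re_mul, QuadraticAlgebra.im_mul, eval₂_add, eval₂_mul, zero_mul,
      add_zero]
    linear_combination (-(a.im.eval₂ ψ x * b.im.eval₂ ψ x)) * h

lemma hsLift_apply (f : R[X]) (ψ : R →+* T) (x y : T) (h : y ^ 2 = (f.map ψ).eval x)
    (a : QuadraticAlgebra R[X] f 0) :
    hsLift f ψ x y h a = a.re.eval₂ ψ x + a.im.eval₂ ψ x * y := rfl

/-- the structure map -/
noncomputable def hsC (f : R[X]) : R →+* QuadraticAlgebra R[X] f 0 :=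
  (algebraMap R[X] (QuadraticAlgebra R[X] f 0)).comp C

lemma hs_ext (f : R[X]) {g g' : QuadraticAlgebra R[X] f 0 →+* T}
    (h0 : g.comp (hsC f) = g'.comp (hsC f)) (h1 : g ⟨X, 0⟩ = g' ⟨X, 0⟩)
    (h2 : g ⟨0, 1⟩ = g' ⟨0, 1⟩) : g = g' := by
  have h3 : g.comp (algebraMap R[X] (QuadraticAlgebra R[X] f 0)) =
      g'.comp (algebraMap R[X] (QuadraticAlgebra R[X] f 0)) := by
    apply Polynomial.ringHom_ext'
    · exact h0
    · exact h1
  ext a
  have h4 : a = algebraMap R[X] (QuadraticAlgebra R[X] f 0) a.re +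
      algebraMap R[X] (QuadraticAlgebra R[X] f 0) a.im * ⟨0, 1⟩ := by
    ext1 <;> simp
  rw [h4, map_add, map_add, map_mul, map_mul, h2]
  have h5 := fun p : R[X] => RingHom.congr_fun h3 p
  simp only [RingHom.comp_apply] at h5
  rw [h5, h5]

lemma hs_rel (f : R[X]) (g : QuadraticAlgebra R[X] f 0 →+* T) :
    g ⟨0, 1⟩ ^ 2 = (f.map (g.comp (hsC f))).eval (g ⟨X, 0⟩) := by
  have h1 : (⟨0, 1⟩ : QuadraticAlgebra R[X] f 0) ^ 2 =
      algebraMap R[X] (QuadraticAlgebra R[X] f 0) f := by
    rw [pow_two]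
    ext1 <;> simp
  have h2 : ∀ p : R[X], g (algebraMap R[X] (QuadraticAlgebra R[X] f 0) p) =
      p.eval₂ (g.comp (hsC f)) (g ⟨X, 0⟩) := by
    intro p
    have h3 : g.comp (algebraMap R[X] (QuadraticAlgebra R[X] f 0)) =
        eval₂RingHom (g.comp (hsC f)) (g ⟨X, 0⟩) := by
      apply Polynomial.ringHom_ext'
      · ext a
        simp [hsC]
      · simp [QuadraticAlgebra.algebraMap_eq]
    exact RingHom.congr_fun h3 p
  rw [← map_pow, h1, h2, eval_map]

lemma hs_sig_ext (f : R[X]) {ψ ψ' : R →+* T} (hf : ψ' = ψ) {xy xy' : T × T} (hxy : xy' = xy)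
    (h' : xy'.2 ^ 2 = (f.map ψ').eval xy'.1) (h : xy.2 ^ 2 = (f.map ψ).eval xy.1) :
    (⟨ψ', ⟨xy', h'⟩⟩ : Σ ψ : R →+* T, {xy : T × T // xy.2 ^ 2 = (f.map ψ).eval xy.1}) =
      ⟨ψ, ⟨xy, h⟩⟩ := by
  subst hf
  subst hxy
  rfl

/-- Homomorphisms from the coordinate ring are homomorphisms from the base together with an affine
point. -/
noncomputable def hsEquiv (f : R[X]) : (QuadraticAlgebra R[X] f 0 →+* T) ≃
    Σ ψ : R →+* T, {xy : T × T // xy.2 ^ 2 = (f.map ψ).eval xy.1} where
  toFun g := ⟨g.comp (hsC f), ⟨(g ⟨X, 0⟩, g ⟨0, 1⟩), hs_rel f g⟩⟩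
  invFun z := hsLift f z.1 z.2.1.1 z.2.1.2 z.2.2
  left_inv g := by
    apply hs_ext
    · ext a
      simp [hsLift_apply, hsC, QuadraticAlgebra.algebraMap_eq]
    · simp [hsLift_apply]
    · simp [hsLift_apply]
  right_inv := by
    rintro ⟨ψ, ⟨⟨x, y⟩, h⟩⟩
    have h1 : (hsLift f ψ x y h).comp (hsC f) = ψ := by
      ext a
      simp [hsLift_apply, hsC, QuadraticAlgebra.algebraMap_eq]
    have h2 : hsLift f ψ x y h ⟨X, 0⟩ = x := by simp [hsLift_apply]
    have h3 : hsLift f ψ x y h ⟨0, 1⟩ = y := by simp [hsLift_apply]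
    exact hs_sig_ext f h1 (Prod.ext h2 h3) _ _

end adjoin

section sums

variable {K : Type*} [Field K] [Fintype K] [DecidableEq K] {A : Type*} [CommRing A]

lemma hs_sum_adjoin (S : HypRing) [Fintype (S.R →+* K)] [inst : Fintype (S.adjoinPoint.R →+* K)]
    (g : K[X] → A) :
    ∑ ψ : S.adjoinPoint.R →+* K, g (S.adjoinPoint.f.map ψ) =
      ∑ ψ : S.R →+* K, (affN (S.f.map ψ) : A) * g (S.f.map ψ) := by
  classical
  let _ : Fintype (QuadraticAlgebra S.R[X] S.f 0 →+* K) := inst
  have h := Fintype.sum_equiv (hsEquiv (T := K) S.f)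
    (fun ψ : QuadraticAlgebra S.R[X] S.f 0 →+* K => g (S.f.map (ψ.comp (hsC S.f))))
    (fun z => g (S.f.map z.1)) (fun ψ => rfl)
  have h2 : ∑ ψ : S.adjoinPoint.R →+* K, g (S.adjoinPoint.f.map ψ) =
      ∑ ψ : QuadraticAlgebra S.R[X] S.f 0 →+* K, g (S.f.map (ψ.comp (hsC S.f))) := by
    apply Finset.sum_congr rfl
    intro ψ _
    congr 1
    exact Polynomial.map_map (hsC S.f) (ψ : QuadraticAlgebra S.R[X] S.f 0 →+* K) S.f
  rw [h2, h, Fintype.sum_sigma]
  apply Finset.sum_congr rfl
  intro ψ _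
  simp only [Finset.sum_const, Finset.card_univ, nsmul_eq_mul]
  congr 2
  rw [affN, Fintype.card_subtype]

lemma hs_isUnit_res {R : Type*} [CommRing R] {F : R[X]} (hF : F.Monic) (h : R →+* K) :
    IsUnit (h (resultant F (derivative F))) ↔
      IsCoprime (F.map h) (derivative (F.map h)) := by
  have hm : (F.map h).Monic := hF.map h
  rw [← isUnit_resultant_iff_isCoprime hm, ← resultant_map_map, ← derivative_map]
  have hn : (F.map h).natDegree = F.natDegree := hF.natDegree_map h
  have hle : (derivative (F.map h)).natDegree ≤ (derivative F).natDegree := by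
    rw [derivative_map]
    exact natDegree_map_le
  obtain ⟨k, hk⟩ := Nat.exists_eq_add_of_le hle
  rw [hk, resultant_add_right_deg _ _ _ _ _ le_rfl, ← hn, hm.coeff_natDegree, one_pow, one_mul]

lemma hs_monic {R₀ : Type} [CommRing R₀] {f₀ : R₀[X]} (hm : f₀.Monic) (h3 : 3 ≤ f₀.natDegree) :
    (famPoly f₀).Monic := by
  rcases subsingleton_or_nontrivial R₀ with h | h
  · have : Subsingleton (MvPolynomial (Fin 2) R₀) := inferInstance
    exact Subsingleton.elim _ _
  · have h1 : (f₀.map (MvPolynomial.C : R₀ →+* MvPolynomial (Fin 2) R₀)).Monic := hm.map _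
    have h2 : (f₀.map (MvPolynomial.C : R₀ →+* MvPolynomial (Fin 2) R₀)).natDegree =
      f₀.natDegree := hm.natDegree_map _
    unfold famPoly
    rw [add_assoc]
    apply h1.add_of_left
    rw [degree_eq_natDegree h1.ne_zero, h2]
    refine lt_of_le_of_lt (degree_linear_le) ?_
    exact_mod_cast (by omega : 1 < f₀.natDegree)

lemma hs_fam_map {R₀ : Type} [CommRing R₀] (f₀ : R₀[X]) (h : MvPolynomial (Fin 2) R₀ →+* K) :
    (famPoly f₀).map h = famF (f₀.map (h.comp MvPolynomial.C))
      (h (MvPolynomial.X 0), h (MvPolynomial.X 1)) := by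
  simp [famPoly, famF, Polynomial.map_map]

lemma hs_mem_goodT (f : K[X]) (t : K × K) :
    t ∈ goodT f ↔ IsCoprime (famF f t) (derivative (famF f t)) := by
  simp [goodT]

/-- Homomorphisms out of `R₀[u,v]`. -/
noncomputable def hsEv {R₀ : Type} [CommRing R₀] (φ : R₀ →+* K) (t : K × K) :
    MvPolynomial (Fin 2) R₀ →+* K := MvPolynomial.eval₂Hom φ ![t.1, t.2]

lemma hsEv_C {R₀ : Type} [CommRing R₀] (φ : R₀ →+* K) (t : K × K) :
    (hsEv φ t).comp MvPolynomial.C = φ := by
  ext a
  simp [hsEv]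

lemma hsEv_0 {R₀ : Type} [CommRing R₀] (φ : R₀ →+* K) (t : K × K) :
    hsEv φ t (MvPolynomial.X 0) = t.1 := by simp [hsEv]

lemma hsEv_1 {R₀ : Type} [CommRing R₀] (φ : R₀ →+* K) (t : K × K) :
    hsEv φ t (MvPolynomial.X 1) = t.2 := by simp [hsEv]

lemma hs_unit {R₀ : Type} [CommRing R₀] {f₀ : R₀[X]} (hm : f₀.Monic) (h3 : 3 ≤ f₀.natDegree)
    (φ : R₀ →+* K) (t : K × K) (ht : t ∈ goodT (f₀.map φ)) :
    IsUnit (hsEv φ t (resultant (famPoly f₀) (derivative (famPoly f₀)))) := by
  rw [hs_isUnit_res (hs_monic hm h3), hs_fam_map, hsEv_C, hsEv_0, hsEv_1]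
  exact (hs_mem_goodT _ _).1 ht

lemma hs_sig_ext2 {R₀ : Type} [CommRing R₀] (f₀ : R₀[X]) {φ φ' : R₀ →+* K} (hf : φ' = φ)
    {t t' : K × K} (ht : t' = t) (h' : t' ∈ goodT (f₀.map φ')) (h : t ∈ goodT (f₀.map φ)) :
    (⟨φ', ⟨t', h'⟩⟩ : Σ φ : R₀ →+* K, {t : K × K // t ∈ goodT (f₀.map φ)}) = ⟨φ, ⟨t, h⟩⟩ := by
  subst hf
  subst ht
  rfl

/-- Homomorphisms out of the base of the family. -/
noncomputable def hsEquivB {R₀ : Type} [CommRing R₀] {f₀ : R₀[X]} (hm : f₀.Monic)
    (h3 : 3 ≤ f₀.natDegree) :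
    (Localization.Away (resultant (famPoly f₀) (derivative (famPoly f₀))) →+* K) ≃
    Σ φ : R₀ →+* K, {t : K × K // t ∈ goodT (f₀.map φ)} where
  toFun g := ⟨(g.comp (algebraMap (MvPolynomial (Fin 2) R₀) _)).comp MvPolynomial.C,
    ⟨(g (algebraMap (MvPolynomial (Fin 2) R₀) _ (MvPolynomial.X 0)),
      g (algebraMap (MvPolynomial (Fin 2) R₀) _ (MvPolynomial.X 1))), by
      rw [hs_mem_goodT]
      have h1 := (hs_isUnit_res (hs_monic hm h3)
        (g.comp (algebraMap (MvPolynomial (Fin 2) R₀) _))).1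
        ((IsLocalization.Away.algebraMap_isUnit (resultant (famPoly f₀)
          (derivative (famPoly f₀)))).map g)
      rw [hs_fam_map] at h1
      exact h1⟩⟩
  invFun z := IsLocalization.Away.lift (resultant (famPoly f₀) (derivative (famPoly f₀)))
    (g := hsEv z.1 z.2.1) (hs_unit hm h3 z.1 z.2.1 z.2.2)
  left_inv g := by
    apply IsLocalization.ringHom_ext (Submonoid.powers (resultant (famPoly f₀)
      (derivative (famPoly f₀))))
    apply MvPolynomial.ringHom_ext
    · intro a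
      simp only [RingHom.coe_comp, Function.comp_apply]
      rw [IsLocalization.Away.lift_eq]
      simp [hsEv]
    · intro i
      simp only [RingHom.coe_comp, Function.comp_apply]
      rw [IsLocalization.Away.lift_eq]
      fin_cases i
      · exact hsEv_0 _ _
      · exact hsEv_1 _ _
  right_inv := by
    rintro ⟨φ, ⟨⟨u, v⟩, h⟩⟩
    apply hs_sig_ext2
    · rw [IsLocalization.Away.lift_comp, hsEv_C]
    · apply Prod.ext
      · simp only []
        rw [IsLocalization.Away.lift_eq, hsEv_0]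
      · simp only []
        rw [IsLocalization.Away.lift_eq, hsEv_1]

lemma hs_sum_base {R₀ : Type} [CommRing R₀] {f₀ : R₀[X]} (hm : f₀.Monic) (h3 : 3 ≤ f₀.natDegree)
    [Fintype (R₀ →+* K)] [inst : Fintype ((famBase f₀).R →+* K)] (g : K[X] → A) :
    ∑ ψ : (famBase f₀).R →+* K, g ((famBase f₀).f.map ψ) =
      ∑ φ : R₀ →+* K, ∑ t ∈ goodT (f₀.map φ), g (famF (f₀.map φ) t) := by
  classical
  let _ : Fintype (Localization.Away (resultant (famPoly f₀) (derivative (famPoly f₀))) →+* K) :=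
    inst
  have h := Fintype.sum_equiv (hsEquivB (K := K) hm h3)
    (fun ψ : Localization.Away (resultant (famPoly f₀) (derivative (famPoly f₀))) →+* K =>
      g ((famBase f₀).f.map ψ))
    (fun z => g (famF (f₀.map z.1) z.2.1)) (fun ψ => by
      congr 1
      show ((famPoly f₀).map (algebraMap (MvPolynomial (Fin 2) R₀) (Localization.Away
        (resultant (famPoly f₀) (derivative (famPoly f₀)))))).map ψ = _
      rw [Polynomial.map_map, hs_fam_map]
      rfl)
  refine Eq.trans h ?_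
  rw [Fintype.sum_sigma]
  apply Finset.sum_congr rfl
  intro φ _
  exact Finset.sum_coe_sort (goodT (f₀.map φ)) (fun t => g (famF (f₀.map φ) t))

lemma hs_finite {B : Type*} [CommRing B] [Algebra.FiniteType ℤ B] : Finite (B →+* K) := by
  obtain ⟨s, hs⟩ := Algebra.FiniteType.out (R := ℤ) (A := B)
  have hinj : Function.Injective (fun (ψ : B →+* K) (b : s) => ψ b) := by
    intro ψ ψ' h
    have h1 : (ψ.toIntAlgHom) = ψ'.toIntAlgHom := by
      apply AlgHom.ext_of_adjoin_eq_top hs
      intro x hx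
      exact congrFun h ⟨x, hx⟩
    ext x
    exact AlgHom.congr_fun h1 x
  exact Finite.of_injective _ hinj

/-- Points of the tower: a homomorphism `R₀ → K`, parameters of a separable member over `K`, and
`r` points of the curve. -/
theorem sum_fam {K : Type*} [Field K] [Fintype K] [DecidableEq K] {A : Type*} [CommRing A]
    {R₀ : Type} [CommRing R₀] [Algebra.FiniteType ℤ R₀] [Fintype (R₀ →+* K)] {f₀ : R₀[X]}
    (hm : f₀.Monic) (h3 : 3 ≤ f₀.natDegree)
    (r : ℕ) [Fintype ((fam f₀ r).R →+* K)] (g : K[X] → A) :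
    ∑ ψ : (fam f₀ r).R →+* K, g ((fam f₀ r).f.map ψ) =
      ∑ φ : R₀ →+* K, ∑ t ∈ goodT (f₀.map φ),
        (affN (famF (f₀.map φ) t) : A) ^ r * g (famF (f₀.map φ) t) := by
  have key : ∀ (r : ℕ) [Fintype ((fam f₀ r).R →+* K)] (g : K[X] → A),
      ∑ ψ : (fam f₀ r).R →+* K, g ((fam f₀ r).f.map ψ) =
        ∑ φ : R₀ →+* K, ∑ t ∈ goodT (f₀.map φ),
          (affN (famF (f₀.map φ) t) : A) ^ r * g (famF (f₀.map φ) t) := by
    intro r
    induction r with
    | zero =>
      intro inst g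
      let _ : Fintype ((famBase f₀).R →+* K) := inst
      simp only [pow_zero, one_mul]
      exact hs_sum_base hm h3 g
    | succ r ih =>
      have := hs_finite (K := K) (B := (fam f₀ r).R)
      have := Fintype.ofFinite ((fam f₀ r).R →+* K)
      rw [fam_succ]
      intro inst g
      rw [hs_sum_adjoin]
      have h := ih (fun F => (affN F : A) * g F)
      rw [h]
      apply Finset.sum_congr rfl
      intro φ _
      apply Finset.sum_congr rfl
      intro t _
      rw [pow_succ]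
      ring
  exact key r g

end sums

end Pool.Agent.HypJac
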