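import Mathlib
import Pool.Agent.HypJac.MomDefs

/-!
# The family `y² = f₀(x) + u x + v` over a finite field: inseparable members, first two moments

PROOF. `q = #K`, `n = deg f₀`, `a_t = trN (famF f₀ t) = -∑_x χ(f₀(x) + u x + v)` (`χ = quadraticChar K`; the number of `y` with `y² = z` is `1 + χ z`: `quadraticChar_card_sqrts`).
* all parameters: `∑_t a_t = 0` (for fixed `x, u` the sum over `v` of `χ` is `0`, `quadraticChar_sum_zero`), `∑_t a_t² = q³ - q²`: the sum over `x, x'` of `∑_{u,v} χ(f₀(x)+ux+v) χ(f₀(x')+ux'+v)`; for `x = x'` this is `q (q-1)`; for `x ≠ x'` the map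
  `(u,v) ↦ (f₀(x)+ux+v, f₀(x')+ux'+v)` is a bijection of `K²`, so it is `(∑ χ)² = 0`.
* bad parameters: at most `n q` (`card_bad`): for given `u` put `G = f₀' + u` (`= F'`, independent of `v`). If `G = 0` all `q` values of `v` may be bad, this happens for at most one `u`. If `G ≠ 0` and `v` is bad then `F` and `G` have a common root `z` in an algebraic closure,
  `v = -f₀(z) - u z`, and there are at most `deg G ≤ n - 1` roots `z`. Total `≤ q (n - 1) + q = n q`.
-/

namespace Pool.Agent.HypJac

open Polynomial

section

variable {K : Type*} [Field K] [Fintype K] [DecidableEq K]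

omit [Fintype K] [DecidableEq K] in
lemma famF_monic {f₀ : K[X]} (hm : f₀.Monic) (h3 : 3 ≤ f₀.natDegree) (t : K × K) :
    (famF f₀ t).Monic ∧ (famF f₀ t).natDegree = f₀.natDegree := by
  have h1 : (C t.1 * X + C t.2 : K[X]).degree < f₀.degree := by
    have h5 : (C t.1 * X + C t.2 : K[X]).natDegree ≤ 1 := natDegree_linear_le
    calc (C t.1 * X + C t.2 : K[X]).degree ≤ (1 : ℕ) := degree_le_of_natDegree_le h5
      _ < f₀.degree := by
        rw [degree_eq_natDegree hm.ne_zero]
        exact_mod_cast (by omega : 1 < f₀.natDegree)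
  have e : famF f₀ t = f₀ + (C t.1 * X + C t.2) := by
    unfold famF
    ring
  rw [e]
  exact ⟨hm.add_of_left h1, natDegree_eq_of_degree_eq (degree_add_eq_left_of_degree_lt h1)⟩

omit [Fintype K] [DecidableEq K] in
lemma famF_eval (f₀ : K[X]) (t : K × K) (x : K) :
    (famF f₀ t).eval x = f₀.eval x + t.1 * x + t.2 := by
  simp [famF]

omit [Fintype K] [DecidableEq K] in
lemma derivative_famF (f₀ : K[X]) (t : K × K) :
    derivative (famF f₀ t) = derivative f₀ + C t.1 := by
  simp [famF]

/-- For given `u` there are few bad `v`. -/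
theorem card_bad_fiber {f₀ : K[X]} (h3 : 3 ≤ f₀.natDegree) (u : K)
    (hG : derivative f₀ + C u ≠ 0) (s : Finset K)
    (hs : ∀ v ∈ s, ¬ IsCoprime (famF f₀ (u, v)) (derivative (famF f₀ (u, v)))) :
    s.card ≤ f₀.natDegree - 1 := by
  classical
  let A := AlgebraicClosure K
  have hroot : ∀ v ∈ s, ∃ z : A, aeval z (famF f₀ (u, v)) = 0 ∧
      aeval z (derivative f₀ + C u) = 0 := by
    intro v hv
    have h := hs v hv
    have key := Polynomial.isCoprime_iff_aeval_ne_zero_of_isAlgClosed K A
      (famF f₀ (u, v)) (derivative (famF f₀ (u, v)))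
    have h0 : ¬ ∀ a : A, aeval a (famF f₀ (u, v)) ≠ 0 ∨
        aeval a (derivative (famF f₀ (u, v))) ≠ 0 := fun h' => h (key.2 h')
    push Not at h0
    obtain ⟨z, h1, h2⟩ := h0
    rw [derivative_famF] at h2
    exact ⟨z, h1, h2⟩
  choose! z hz1 hz2 using hroot
  have hinj : Set.InjOn z s := by
    intro v hv w hw hvw
    have h1 := hz1 v hv
    have h2 := hz1 w hw
    rw [← hvw] at h2
    simp only [famF, map_add, map_mul, aeval_C, aeval_X] at h1 h2
    have h4 : algebraMap K A v = algebraMap K A w := by linear_combination h1 - h2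
    exact (algebraMap K A).injective h4
  have hsub : s.image z ⊆ ((derivative f₀ + C u).map (algebraMap K A)).roots.toFinset := by
    intro a ha
    obtain ⟨v, hv, rfl⟩ := Finset.mem_image.1 ha
    rw [Multiset.mem_toFinset, mem_roots (map_ne_zero hG), IsRoot.def, eval_map, ← aeval_def]
    exact hz2 v hv
  calc s.card = (s.image z).card := (Finset.card_image_of_injOn hinj).symm
    _ ≤ ((derivative f₀ + C u).map (algebraMap K A)).roots.toFinset.card :=
        Finset.card_le_card hsub
    _ ≤ Multiset.card ((derivative f₀ + C u).map (algebraMap K A)).roots :=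
        Multiset.toFinset_card_le _
    _ ≤ ((derivative f₀ + C u).map (algebraMap K A)).natDegree := card_roots' _
    _ ≤ (derivative f₀ + C u).natDegree := natDegree_map_le
    _ ≤ f₀.natDegree - 1 := by
        refine (natDegree_add_le _ _).trans ?_
        rw [natDegree_C]
        have := natDegree_derivative_le f₀
        omega

/-- There are few inseparable members. -/
theorem card_bad {f₀ : K[X]} (hm : f₀.Monic) (h3 : 3 ≤ f₀.natDegree) :
    ((goodT f₀)ᶜ : Finset (K × K)).card ≤ f₀.natDegree * Fintype.card K := by
  classical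
  have hmem : ∀ t : K × K, t ∈ (goodT f₀)ᶜ ↔
      ¬ IsCoprime (famF f₀ t) (derivative (famF f₀ t)) := by
    intro t
    rw [Finset.mem_compl]
    unfold goodT
    rw [Finset.mem_filter]
    simp
  set n := f₀.natDegree with hn
  set q := Fintype.card K with hq
  have hfib : ((goodT f₀)ᶜ : Finset (K × K)).card =
      ∑ u : K, (Finset.univ.filter fun v : K => (u, v) ∈ (goodT f₀)ᶜ).card := by
    rw [Finset.card_eq_sum_card_fiberwise (f := Prod.fst) (t := Finset.univ)
      (fun _ _ => Finset.mem_univ _)]
    apply Finset.sum_congr rfl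
    intro u _
    apply Finset.card_bij (fun t _ => t.2)
    · intro t ht
      rw [Finset.mem_filter] at ht
      rw [Finset.mem_filter]
      refine ⟨Finset.mem_univ _, ?_⟩
      obtain ⟨h1, rfl⟩ := ht
      exact h1
    · intro t ht t' ht' h
      rw [Finset.mem_filter] at ht ht'
      exact Prod.ext (ht.2.trans ht'.2.symm) h
    · intro v hv
      rw [Finset.mem_filter] at hv
      exact ⟨(u, v), by rw [Finset.mem_filter]; exact ⟨hv.2, rfl⟩, rfl⟩
  rw [hfib]
  have hb : ∀ u : K, (Finset.univ.filter fun v : K => (u, v) ∈ (goodT f₀)ᶜ).card ≤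
      (n - 1) + if derivative f₀ + C u = 0 then q else 0 := by
    intro u
    split_ifs with h
    · refine le_trans ?_ (Nat.le_add_left _ _)
      exact Finset.card_le_univ _
    · rw [add_zero]
      apply card_bad_fiber h3 u h
      intro v hv
      rw [Finset.mem_filter] at hv
      exact (hmem _).1 hv.2
  calc ∑ u : K, (Finset.univ.filter fun v : K => (u, v) ∈ (goodT f₀)ᶜ).card
      ≤ ∑ u : K, ((n - 1) + if derivative f₀ + C u = 0 then q else 0) :=
        Finset.sum_le_sum fun u _ => hb u
    _ = q * (n - 1) + ∑ u : K, (if derivative f₀ + C u = 0 then q else 0) := by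
        rw [Finset.sum_add_distrib, Finset.sum_const, Finset.card_univ, smul_eq_mul]
    _ ≤ q * (n - 1) + q := by
        apply Nat.add_le_add_left
        rw [← Finset.sum_filter, Finset.sum_const, smul_eq_mul]
        have h1 : (Finset.univ.filter fun u : K => derivative f₀ + C u = 0).card ≤ 1 := by
          rw [Finset.card_le_one]
          intro u hu w hw
          rw [Finset.mem_filter] at hu hw
          have h2 : (C u : K[X]) = C w := by
            have := hu.2.trans hw.2.symm
            exact add_left_cancel this
          exact C_injective h2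
        calc _ ≤ 1 * q := Nat.mul_le_mul_right _ h1
          _ = q := one_mul q
    _ = n * q := by
        obtain ⟨m, hm'⟩ : ∃ m, n = m + 1 := ⟨n - 1, by omega⟩
        rw [hm', Nat.add_sub_cancel]
        ring

omit [Fintype K] [DecidableEq K] in
lemma ringChar_ne (h2 : (2 : K) ≠ 0) : ringChar K ≠ 2 := by
  intro h
  apply h2
  have := ringChar.Nat.cast_ringChar (R := K)
  rw [h] at this
  exact_mod_cast this

/-- The trace in terms of the quadratic character. -/
theorem trN_eq (h2 : (2 : K) ≠ 0) (f : K[X]) : trN f = -∑ x : K, quadraticChar K (f.eval x) := by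
  classical
  have h1 : (affN f : ℤ) = ∑ x : K, (quadraticChar K (f.eval x) + 1) := by
    unfold affN
    rw [Finset.card_eq_sum_card_fiberwise (f := Prod.fst) (t := Finset.univ)
      (fun _ _ => Finset.mem_univ _), Nat.cast_sum]
    apply Finset.sum_congr rfl
    intro x _
    rw [← quadraticChar_card_sqrts (ringChar_ne h2) (f.eval x)]
    congr 1
    apply Finset.card_bij (fun P _ => P.2)
    · intro P hP
      rw [Finset.mem_filter, Finset.mem_filter] at hP
      obtain ⟨⟨-, h3⟩, rfl⟩ := hP
      simpa using h3
    · intro P hP P' hP' h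
      rw [Finset.mem_filter] at hP hP'
      exact Prod.ext (hP.2.trans hP'.2.symm) h
    · intro y hy
      refine ⟨(x, y), ?_, rfl⟩
      rw [Finset.mem_filter, Finset.mem_filter]
      refine ⟨⟨Finset.mem_univ _, ?_⟩, rfl⟩
      simpa using hy
  unfold trN
  rw [h1, Finset.sum_add_distrib]
  simp

/-- The first moment over all parameters. -/
theorem sum_trN (h2 : (2 : K) ≠ 0) (f₀ : K[X]) : ∑ t : K × K, trN (famF f₀ t) = 0 := by
  classical
  have hz := quadraticChar_sum_zero (F := K) (ringChar_ne h2)
  simp only [trN_eq h2, Finset.sum_neg_distrib, neg_eq_zero]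
  rw [Finset.sum_comm]
  apply Finset.sum_eq_zero
  intro x _
  rw [Fintype.sum_prod_type]
  apply Finset.sum_eq_zero
  intro u _
  simp only [famF_eval]
  exact (Equiv.sum_comp (Equiv.addLeft (f₀.eval x + u * x)) (fun a => quadraticChar K a)).trans hz

/-- The second moment over all parameters. -/
theorem sum_trN_sq (h2 : (2 : K) ≠ 0) (f₀ : K[X]) :
    ∑ t : K × K, trN (famF f₀ t) ^ 2 = (Fintype.card K : ℤ) ^ 3 - (Fintype.card K : ℤ) ^ 2 := by
  classical
  have hz := quadraticChar_sum_zero (F := K) (ringChar_ne h2)
  have hsq : ∑ a : K, quadraticChar K a ^ 2 = (Fintype.card K : ℤ) - 1 := by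
    have h3 : ∀ a : K, quadraticChar K a ^ 2 = if a = 0 then 0 else 1 := by
      intro a
      split_ifs with h
      · rw [h]; simp
      · exact quadraticChar_sq_one h
    simp_rw [h3]
    rw [Finset.sum_ite, Finset.sum_const_zero, zero_add, Finset.sum_const, nsmul_eq_mul, mul_one]
    rw [show (Finset.univ.filter fun a : K => ¬ a = 0) = Finset.univ.erase 0 by
      ext a; simp, Finset.card_erase_of_mem (Finset.mem_univ _), Finset.card_univ,
      Nat.cast_sub Fintype.card_pos, Nat.cast_one]
  have hpair : ∀ x x' : K, ∑ t : K × K, quadraticChar K ((famF f₀ t).eval x) *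
      quadraticChar K ((famF f₀ t).eval x') =
      if x = x' then (Fintype.card K : ℤ) * (Fintype.card K - 1) else 0 := by
    intro x x'
    split_ifs with h
    · subst h
      rw [Fintype.sum_prod_type]
      have h4 : ∀ u : K, ∑ v : K, quadraticChar K ((famF f₀ (u, v)).eval x) *
          quadraticChar K ((famF f₀ (u, v)).eval x) = (Fintype.card K : ℤ) - 1 := by
        intro u
        simp only [famF_eval, ← pow_two]
        exact (Equiv.sum_comp (Equiv.addLeft (f₀.eval x + u * x))
          (fun a => quadraticChar K a ^ 2)).trans hsq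
      simp only [h4, Finset.sum_const, Finset.card_univ, nsmul_eq_mul]
    · have hne : x - x' ≠ 0 := sub_ne_zero.2 h
      let e : K × K ≃ K × K :=
        { toFun := fun t => (f₀.eval x + t.1 * x + t.2, f₀.eval x' + t.1 * x' + t.2)
          invFun := fun p =>
            (((p.1 - f₀.eval x) - (p.2 - f₀.eval x')) / (x - x'),
              p.1 - f₀.eval x - ((p.1 - f₀.eval x) - (p.2 - f₀.eval x')) / (x - x') * x)
          left_inv := by
            rintro ⟨u, v⟩
            ext
            · dsimp only
              field_simp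
              ring
            · dsimp only
              field_simp
              ring
          right_inv := by
            rintro ⟨a, b⟩
            ext
            · dsimp only
              field_simp
              ring
            · dsimp only
              field_simp
              ring }
      have h5 : ∑ t : K × K, quadraticChar K ((famF f₀ t).eval x) *
          quadraticChar K ((famF f₀ t).eval x') =
          ∑ p : K × K, quadraticChar K p.1 * quadraticChar K p.2 := by
        refine Eq.trans ?_ (Equiv.sum_comp e (fun p => quadraticChar K p.1 * quadraticChar K p.2))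
        apply Finset.sum_congr rfl
        intro t _
        rw [famF_eval, famF_eval]
        rfl
      rw [h5, Fintype.sum_prod_type]
      simp only [← Finset.mul_sum, hz, mul_zero, Finset.sum_const_zero]
  have hexp : ∀ t : K × K, trN (famF f₀ t) ^ 2 = ∑ x : K, ∑ x' : K,
      quadraticChar K ((famF f₀ t).eval x) * quadraticChar K ((famF f₀ t).eval x') := by
    intro t
    rw [trN_eq h2, neg_sq, pow_two, Finset.sum_mul_sum]
  simp only [hexp]
  rw [Finset.sum_comm]
  have h6 : ∀ x : K, ∑ t : K × K, ∑ x' : K, quadraticChar K ((famF f₀ t).eval x) *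
      quadraticChar K ((famF f₀ t).eval x') = (Fintype.card K : ℤ) * (Fintype.card K - 1) := by
    intro x
    rw [Finset.sum_comm]
    simp only [hpair]
    simp
  simp only [h6, Finset.sum_const, Finset.card_univ, nsmul_eq_mul]
  ring

end

end Pool.Agent.HypJac
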