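import Pool.Agent.HJ66.Stepanov
import Pool.Agent.HypJac.MomDefs

/-!
# The Weil bound for `y² = f(x)`, `f` of odd degree

From `Pool/Agent/HJ66/Stepanov.lean` (Stepanov's method with Hasse derivatives).
-/

namespace Pool.Agent.HypJac

open Polynomial

theorem ringChar_ne_two {K : Type*} [Field K] (h2 : (2 : K) ≠ 0) : ringChar K ≠ 2 := by
  intro h
  apply h2
  have h1 := ringChar.spec K 2
  rw [h] at h1
  exact_mod_cast h1.2 dvd_rfl

theorem trN_eq {K : Type*} [Field K] [Fintype K] [DecidableEq K] (h2 : (2 : K) ≠ 0) (f : K[X]) :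
    trN f = -∑ x : K, quadraticChar K (f.eval x) := by
  have h1 : (affN f : ℤ) = ∑ x : K, (quadraticChar K (f.eval x) + 1) := by
    rw [affN, Finset.card_filter, ← Finset.univ_product_univ, Finset.sum_product]
    push_cast
    refine Finset.sum_congr rfl fun x _ => ?_
    rw [← quadraticChar_card_sqrts (ringChar_ne_two h2) (f.eval x), Finset.sum_boole]
    norm_cast
    congr 1
    ext y
    simp
  rw [trN, h1, Finset.sum_add_distrib]
  simp

/-- **The Weil bound** for hyperelliptic curves with one point at infinity. -/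
theorem weil_trN {K : Type*} [Field K] [Fintype K] [DecidableEq K] (h2 : (2 : K) ≠ 0) {f : K[X]}
    (_hf : f.Monic) (hn : Odd f.natDegree) :
    |(trN f : ℝ)| ≤ WC f.natDegree * Real.sqrt (Fintype.card K) := by
  have h1 := Pool.Agent.HJ66.weil_odd (ringChar_ne_two h2) f hn
  rw [trN_eq h2, Int.cast_neg, abs_neg]
  refine h1.trans ?_
  rw [WC]
  push_cast
  have : (0 : ℝ) ≤ f.natDegree * Real.sqrt (Fintype.card K) := by positivity
  nlinarith

end Pool.Agent.HypJac
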