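import Mathlib
import Pool.Agent.HypJac.MomA
import Pool.Agent.HypJac.Weil

/-!
# Moments of the traces in the family `y² = f₀(x) + u x + v` over the `r`-fold fibre power

PROOF. `q = #K`, `n = deg f₀`, `a_t = trN (famF f₀ t)`. `W = WC n`, `|a_t| ≤ W √q` for all `t` (`weil_trN`; `famF f₀ t` is monic of degree `n`).
* `moment_main`: `affN = q - a`, expand `(q - a)^r a = ∑_i C(r,i) q^{r-i} (-1)^i a^{i+1}`. `i = 0`: `q^r |∑_good a| = q^r |∑_bad a| ≤ q^r · n q · W √q`. `i = 1`: `-r q^{r-1} (q³ - q² - ∑_bad a²)`, error `≤ r q^{r-1} (q² + n q W² q) = r (1 + n W²) q^{r+1}`.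
  `i ≥ 2`: `C(r,i) q^{r-i} · q² · (W √q)^{i+1} ≤ C(r,i) W^{i+1} q^{r+1} √q`. Sum: `CM n r`. (`√q ≥ 1`.)
* `moment_abs`: `0 ≤ affN ≤ 2 q` (at most two `y` for each `x`).
-/

namespace Pool.Agent.HypJac

open Polynomial

section

variable {K : Type*} [Field K] [Fintype K] [DecidableEq K]

omit [DecidableEq K] in
private lemma mom_q_one : (1 : ℝ) ≤ Fintype.card K := by
  have : 0 < Fintype.card K := Fintype.card_pos
  exact_mod_cast this

private lemma mom_fiber (f : K[X]) (x : K) :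
    ((Finset.univ.filter fun P : K × K => P.2 ^ 2 = f.eval P.1).filter
      fun P => P.1 = x).card ≤ 2 := by
  rcases Finset.eq_empty_or_nonempty ((Finset.univ.filter fun P : K × K =>
    P.2 ^ 2 = f.eval P.1).filter fun P => P.1 = x) with h | ⟨P0, h0⟩
  · rw [h]; simp
  · have hsub : ((Finset.univ.filter fun P : K × K => P.2 ^ 2 = f.eval P.1).filter
        fun P => P.1 = x) ⊆ {(x, P0.2), (x, -P0.2)} := by
      intro P hP
      simp only [Finset.mem_filter, Finset.mem_univ, true_and] at hP h0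
      obtain ⟨h1, h2⟩ := hP
      obtain ⟨h3, h4⟩ := h0
      have h5 : P.2 ^ 2 = P0.2 ^ 2 := by rw [h1, h3, h2, h4]
      rw [Finset.mem_insert, Finset.mem_singleton]
      rcases sq_eq_sq_iff_eq_or_eq_neg.1 h5 with h6 | h6
      · left
        exact Prod.ext h2 h6
      · right
        exact Prod.ext h2 h6
    exact (Finset.card_le_card hsub).trans Finset.card_le_two

private lemma mom_affN_le (f : K[X]) : affN f ≤ 2 * Fintype.card K := by
  unfold affN
  rw [Finset.card_eq_sum_card_fiberwise (f := Prod.fst) (t := Finset.univ)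
    (fun _ _ => Finset.mem_coe.2 (Finset.mem_univ _))]
  refine (Finset.sum_le_card_nsmul _ _ 2 (fun x _ => mom_fiber f x)).trans ?_
  rw [Finset.card_univ, smul_eq_mul, mul_comm]

private lemma mom_affN_eq (f : K[X]) : (affN f : ℝ) = Fintype.card K - (trN f : ℝ) := by
  unfold trN
  push_cast
  ring

/-- Two terms of the binomial expansion. -/
private lemma mom_expand (q a W : ℝ) (hq : 1 ≤ q) (hW : 0 ≤ W)
    (ha : |a| ≤ W * Real.sqrt q) (r : ℕ) :
    |q * ((q - a) ^ r * a) - q ^ (r + 1) * a + r * q ^ r * a ^ 2| ≤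
      (W * ((1 + W) ^ r - 1 - r * W)) * (q ^ r * Real.sqrt q) := by
  have hq0 : 0 < q := by linarith
  have hs1 : 1 ≤ Real.sqrt q := by
    rw [← Real.sqrt_one]
    exact Real.sqrt_le_sqrt hq
  have hss : Real.sqrt q * Real.sqrt q = q := Real.mul_self_sqrt hq0.le
  induction r with
  | zero =>
    simp
  | succ r ih =>
    set s := Real.sqrt q with hs
    set c : ℝ := W * ((1 + W) ^ r - 1 - r * W) with hc
    set e : ℝ := q * ((q - a) ^ r * a) - q ^ (r + 1) * a + r * q ^ r * a ^ 2 with he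
    have hqr : 0 < q ^ r := pow_pos hq0 r
    have hc0 : 0 ≤ c := by
      by_contra hcon
      push Not at hcon
      have h1 : c * (q ^ r * s) < 0 := mul_neg_of_neg_of_pos hcon (by positivity)
      linarith [abs_nonneg e]
    have hexp : q * ((q - a) ^ (r + 1) * a) - q ^ (r + 1 + 1) * a +
        ((r + 1 : ℕ) : ℝ) * q ^ (r + 1) * a ^ 2 = q * e + r * q ^ r * a ^ 3 - a * e := by
      rw [he]
      push_cast
      ring
    rw [hexp]
    have ha3 : |a| ^ 3 ≤ W ^ 3 * (q * s) := by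
      calc |a| ^ 3 ≤ (W * s) ^ 3 := pow_le_pow_left₀ (abs_nonneg a) ha 3
        _ = W ^ 3 * ((s * s) * s) := by ring
        _ = W ^ 3 * (q * s) := by rw [hss]
    have h1 : |q * e| ≤ c * (q ^ (r + 1) * s) := by
      rw [abs_mul, abs_of_pos hq0]
      calc q * |e| ≤ q * (c * (q ^ r * s)) := mul_le_mul_of_nonneg_left ih hq0.le
        _ = c * (q ^ (r + 1) * s) := by ring
    have h2 : |r * q ^ r * a ^ 3| ≤ r * W ^ 3 * (q ^ (r + 1) * s) := by
      rw [abs_mul, abs_pow, abs_of_nonneg (by positivity : (0 : ℝ) ≤ r * q ^ r)]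
      calc (r : ℝ) * q ^ r * |a| ^ 3 ≤ r * q ^ r * (W ^ 3 * (q * s)) :=
            mul_le_mul_of_nonneg_left ha3 (by positivity)
        _ = _ := by ring
    have h3 : |a * e| ≤ W * c * (q ^ (r + 1) * s) := by
      rw [abs_mul]
      calc |a| * |e| ≤ (W * s) * (c * (q ^ r * s)) :=
            mul_le_mul ha ih (abs_nonneg _) (by positivity)
        _ = W * c * (q ^ r * (s * s)) := by ring
        _ = W * c * (q ^ (r + 1)) := by rw [hss]; ring
        _ ≤ W * c * (q ^ (r + 1) * s) := by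
            apply mul_le_mul_of_nonneg_left _ (by positivity)
            exact le_mul_of_one_le_right (by positivity) hs1
    have h4 : |q * e + r * q ^ r * a ^ 3 - a * e| ≤
        |q * e| + |r * q ^ r * a ^ 3| + |a * e| :=
      (abs_sub _ _).trans (add_le_add (abs_add_le _ _) le_rfl)
    refine h4.trans ?_
    have h5 : (W * ((1 + W) ^ (r + 1) - 1 - ((r + 1 : ℕ) : ℝ) * W)) * (q ^ (r + 1) * s) =
        c * (q ^ (r + 1) * s) + r * W ^ 3 * (q ^ (r + 1) * s) + W * c * (q ^ (r + 1) * s) := by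
      rw [hc]
      push_cast
      ring
    rw [h5]
    linarith

/-- The first moment over the `r`-fold fibre power. -/
theorem moment_main (h2 : (2 : K) ≠ 0) {f₀ : K[X]} (hm : f₀.Monic) (hn : Odd f₀.natDegree)
    (h3 : 3 ≤ f₀.natDegree) (r : ℕ) :
    |∑ t ∈ goodT f₀, (affN (famF f₀ t) : ℝ) ^ r * (trN (famF f₀ t) : ℝ) +
        r * (Fintype.card K : ℝ) ^ (r + 2)| ≤
      CM f₀.natDegree r * ((Fintype.card K : ℝ) ^ (r + 1) * Real.sqrt (Fintype.card K)) := by
  classical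
  set q : ℝ := (Fintype.card K : ℝ) with hq
  have hq1 : 1 ≤ q := mom_q_one
  have hq0 : 0 < q := by linarith
  set s := Real.sqrt q with hs
  have hs1 : 1 ≤ s := by
    rw [hs, ← Real.sqrt_one]
    exact Real.sqrt_le_sqrt hq1
  have hss : s * s = q := Real.mul_self_sqrt hq0.le
  set n := f₀.natDegree with hnn
  set W : ℝ := (WC n : ℝ) with hW
  have hW0 : 0 ≤ W := Nat.cast_nonneg _
  set a : K × K → ℝ := fun t => (trN (famF f₀ t) : ℝ) with ha
  have hab : ∀ t, |a t| ≤ W * s := by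
    intro t
    obtain ⟨h1, h2'⟩ := famF_monic hm h3 t
    have h4 := weil_trN h2 h1 (by rw [h2']; exact hn)
    rw [h2'] at h4
    exact h4
  have haff : ∀ t, (affN (famF f₀ t) : ℝ) = q - a t := fun t => mom_affN_eq _
  simp only [haff]
  change |∑ t ∈ goodT f₀, (q - a t) ^ r * a t + r * q ^ (r + 2)| ≤ _
  set G := goodT f₀ with hG
  set B := (goodT f₀)ᶜ with hB
  have hBcard : (B.card : ℝ) ≤ n * q := by
    have := card_bad hm h3
    rw [hq]
    exact_mod_cast this
  have hGcard : (G.card : ℝ) ≤ q ^ 2 := by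
    have h1 : G.card ≤ Fintype.card (K × K) := Finset.card_le_univ _
    rw [Fintype.card_prod] at h1
    rw [hq, sq]
    exact_mod_cast h1
  have hsum1 : ∑ t ∈ G, a t = - ∑ t ∈ B, a t := by
    have h1 : ∑ t ∈ G, a t + ∑ t ∈ B, a t = ∑ t, a t := Finset.sum_add_sum_compl _ _
    have h4 : ∑ t, a t = 0 := by
      have h5 := sum_trN (K := K) h2 f₀
      have h6 : ((∑ t : K × K, trN (famF f₀ t) : ℤ) : ℝ) = 0 := by rw [h5]; simp
      rw [Int.cast_sum] at h6
      exact h6
    linarith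
  have hsum2 : ∑ t ∈ G, a t ^ 2 = q ^ 3 - q ^ 2 - ∑ t ∈ B, a t ^ 2 := by
    have h1 : ∑ t ∈ G, a t ^ 2 + ∑ t ∈ B, a t ^ 2 = ∑ t, a t ^ 2 :=
      Finset.sum_add_sum_compl _ _
    have h4 : ∑ t, a t ^ 2 = q ^ 3 - q ^ 2 := by
      have h5 := sum_trN_sq (K := K) h2 f₀
      have h6 : ((∑ t : K × K, trN (famF f₀ t) ^ 2 : ℤ) : ℝ) = q ^ 3 - q ^ 2 := by
        rw [h5]
        push_cast
        rw [hq]
      rw [Int.cast_sum] at h6
      rw [← h6]
      apply Finset.sum_congr rfl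
      intro t _
      rw [ha]
      push_cast
      rfl
    linarith
  have hB1 : |∑ t ∈ B, a t| ≤ n * q * (W * s) := by
    refine (Finset.abs_sum_le_sum_abs _ _).trans ?_
    refine (Finset.sum_le_card_nsmul _ _ _ (fun t _ => hab t)).trans ?_
    rw [nsmul_eq_mul]
    exact mul_le_mul_of_nonneg_right hBcard (by positivity)
  have hB2 : |∑ t ∈ B, a t ^ 2| ≤ n * q * (W ^ 2 * q) := by
    refine (Finset.abs_sum_le_sum_abs _ _).trans ?_
    have h1 : ∀ t ∈ B, |a t ^ 2| ≤ W ^ 2 * q := by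
      intro t _
      rw [abs_pow]
      calc |a t| ^ 2 ≤ (W * s) ^ 2 := pow_le_pow_left₀ (abs_nonneg _) (hab t) 2
        _ = W ^ 2 * (s * s) := by ring
        _ = W ^ 2 * q := by rw [hss]
    refine (Finset.sum_le_card_nsmul _ _ _ h1).trans ?_
    rw [nsmul_eq_mul]
    exact mul_le_mul_of_nonneg_right hBcard (by positivity)
  set c : ℝ := W * ((1 + W) ^ r - 1 - r * W) with hc
  set e : K × K → ℝ := fun t => q * ((q - a t) ^ r * a t) - q ^ (r + 1) * a t +
    r * q ^ r * a t ^ 2 with he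
  have heb : ∀ t, |e t| ≤ c * (q ^ r * s) := fun t => mom_expand q (a t) W hq1 hW0 (hab t) r
  have hc0 : 0 ≤ c := by
    by_contra hcon
    push Not at hcon
    have h1 : c * (q ^ r * s) < 0 := mul_neg_of_neg_of_pos hcon (by positivity)
    linarith [abs_nonneg (e (0, 0)), heb (0, 0)]
  have hcW : c ≤ W * (1 + W) ^ r := by
    rw [hc]
    apply mul_le_mul_of_nonneg_left _ hW0
    have : 0 ≤ (r : ℝ) * W := by positivity
    linarith
  have hE : |∑ t ∈ G, e t| ≤ q ^ 2 * (c * (q ^ r * s)) := by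
    refine (Finset.abs_sum_le_sum_abs _ _).trans ?_
    refine (Finset.sum_le_card_nsmul _ _ _ (fun t _ => heb t)).trans ?_
    rw [nsmul_eq_mul]
    exact mul_le_mul_of_nonneg_right hGcard (by positivity)
  have hmain : q * (∑ t ∈ G, (q - a t) ^ r * a t + r * q ^ (r + 2)) =
      - q ^ (r + 1) * ∑ t ∈ B, a t + r * q ^ r * (q ^ 2 + ∑ t ∈ B, a t ^ 2) +
        ∑ t ∈ G, e t := by
    have h1 : ∑ t ∈ G, e t = q * ∑ t ∈ G, (q - a t) ^ r * a t - q ^ (r + 1) * ∑ t ∈ G, a t +
        r * q ^ r * ∑ t ∈ G, a t ^ 2 := by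
      rw [he, Finset.sum_add_distrib, Finset.sum_sub_distrib, Finset.mul_sum, Finset.mul_sum,
        Finset.mul_sum]
    rw [h1, hsum1, hsum2]
    ring
  have hCM : (CM n r : ℝ) = n * W + r * (1 + n * W ^ 2) + W * (1 + W) ^ r := by
    unfold CM
    push_cast
    rfl
  have hfin : q * |∑ t ∈ G, (q - a t) ^ r * a t + r * q ^ (r + 2)| ≤
      q * (CM n r * (q ^ (r + 1) * s)) := by
    rw [← abs_of_pos hq0, ← abs_mul, abs_of_pos hq0, hmain]
    refine (abs_add_three _ _ _).trans ?_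
    have h1 : |- q ^ (r + 1) * ∑ t ∈ B, a t| ≤ n * W * (q ^ (r + 2) * s) := by
      rw [abs_mul, abs_neg, abs_of_pos (pow_pos hq0 _)]
      calc q ^ (r + 1) * |∑ t ∈ B, a t| ≤ q ^ (r + 1) * (n * q * (W * s)) :=
            mul_le_mul_of_nonneg_left hB1 (by positivity)
        _ = _ := by ring
    have h4 : |r * q ^ r * (q ^ 2 + ∑ t ∈ B, a t ^ 2)| ≤
        r * (1 + n * W ^ 2) * (q ^ (r + 2) * s) := by
      rw [abs_mul, abs_of_nonneg (by positivity : (0 : ℝ) ≤ r * q ^ r)]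
      have h5 : |q ^ 2 + ∑ t ∈ B, a t ^ 2| ≤ q ^ 2 + n * q * (W ^ 2 * q) := by
        refine (abs_add_le _ _).trans ?_
        rw [abs_of_pos (pow_pos hq0 2)]
        exact add_le_add le_rfl hB2
      calc (r : ℝ) * q ^ r * |q ^ 2 + ∑ t ∈ B, a t ^ 2| ≤
            r * q ^ r * (q ^ 2 + n * q * (W ^ 2 * q)) :=
            mul_le_mul_of_nonneg_left h5 (by positivity)
        _ = r * (1 + n * W ^ 2) * q ^ (r + 2) := by ring
        _ ≤ r * (1 + n * W ^ 2) * (q ^ (r + 2) * s) := by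
            apply mul_le_mul_of_nonneg_left _ (by positivity)
            exact le_mul_of_one_le_right (by positivity) hs1
    have h6 : |∑ t ∈ G, e t| ≤ W * (1 + W) ^ r * (q ^ (r + 2) * s) := by
      refine hE.trans ?_
      calc q ^ 2 * (c * (q ^ r * s)) = c * (q ^ (r + 2) * s) := by ring
        _ ≤ _ := mul_le_mul_of_nonneg_right hcW (by positivity)
    have h7 : q * (CM n r * (q ^ (r + 1) * s)) = n * W * (q ^ (r + 2) * s) +
        r * (1 + n * W ^ 2) * (q ^ (r + 2) * s) + W * (1 + W) ^ r * (q ^ (r + 2) * s) := by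
      rw [hCM]
      ring
    rw [h7]
    linarith
  exact le_of_mul_le_mul_left hfin hq0

/-- The first absolute moment over the `r`-fold fibre power. -/
theorem moment_abs (h2 : (2 : K) ≠ 0) {f₀ : K[X]} (hm : f₀.Monic) (hn : Odd f₀.natDegree)
    (h3 : 3 ≤ f₀.natDegree) (r : ℕ) :
    ∑ t ∈ goodT f₀, (affN (famF f₀ t) : ℝ) ^ r * |(trN (famF f₀ t) : ℝ)| ≤
      2 ^ r * WC f₀.natDegree *
        ((Fintype.card K : ℝ) ^ (r + 2) * Real.sqrt (Fintype.card K)) := by
  classical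
  set q : ℝ := (Fintype.card K : ℝ) with hq
  have hq1 : 1 ≤ q := mom_q_one
  have hq0 : 0 < q := by linarith
  have hGcard : ((goodT f₀).card : ℝ) ≤ q ^ 2 := by
    have h1 : (goodT f₀).card ≤ Fintype.card (K × K) := Finset.card_le_univ _
    rw [Fintype.card_prod] at h1
    rw [hq, sq]
    exact_mod_cast h1
  have hpt : ∀ t ∈ goodT f₀, (affN (famF f₀ t) : ℝ) ^ r * |(trN (famF f₀ t) : ℝ)| ≤
      (2 * q) ^ r * (WC f₀.natDegree * Real.sqrt q) := by
    intro t _
    have h1 : (affN (famF f₀ t) : ℝ) ≤ 2 * q := by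
      have := mom_affN_le (famF f₀ t)
      rw [hq]
      exact_mod_cast this
    obtain ⟨h4, h5⟩ := famF_monic hm h3 t
    have h6 := weil_trN h2 h4 (by rw [h5]; exact hn)
    rw [h5] at h6
    exact mul_le_mul (pow_le_pow_left₀ (Nat.cast_nonneg _) h1 r) h6 (abs_nonneg _) (by positivity)
  refine (Finset.sum_le_card_nsmul _ _ _ hpt).trans ?_
  rw [nsmul_eq_mul]
  calc ((goodT f₀).card : ℝ) * ((2 * q) ^ r * (WC f₀.natDegree * Real.sqrt q)) ≤
        q ^ 2 * ((2 * q) ^ r * (WC f₀.natDegree * Real.sqrt q)) :=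
        mul_le_mul_of_nonneg_right hGcard (by positivity)
    _ = _ := by rw [mul_pow]; ring

end

end Pool.Agent.HypJac
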