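import Mathlib
import Pool.Agent.HypJac.Mom
import Pool.Agent.HypJac.HomSum
import Pool.Agent.HypJac.HEuler
import Pool.Agent.Hhelper85.UCrel

/-!
# The analytic part

PROOF. As Hhelper85/Analytic.lean. Let `x = (p, m)`, `q = p^m`, `m ≠ 0` (for `m = 0` all weights `pw s x`, `pr σ x` vanish). For `φ : R₀ → GF x`, `2 ≠ 0` in `GF x` and `moment_main` for `f₀.map φ` (monic of degree `n`) gives `‖TJ f₀ r x‖ ≤ hN R₀ x * CM n r * q^(r+1) * √q`. Hence
`‖TJ f₀ r x * pw s x‖ ≤ CM n r * (hN R₀ x * pr (s.re - (r+1) - 1/2) x)` (`pow_mul_pr`, `sqrt_mul_pr`) and `HJ` is holomorphic for `d < s.re - r - 3/2` (`Complex.differentiableOn_tsum_of_summable_norm` as in `differentiableOn_HH`).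
`moment_abs` gives summability of `vJ` for `d + r + 5/2 < re s`; `sum_fam` evaluates `∑_ψ vJ = (∑_φ ∑_t affN^r trN) pw s x = TJ * pw s x - r q^(r+2) hN pw s x`; then `euler_prod`. (`affC` and `affN` agree: `Nat.card` of a subtype.)
-/

namespace Pool.Agent.HypJac

open Polynomial Pool.Agent.HypTate Pool.Agent.TateBSD Pool.Agent.Hhelper85

/-- The first moment attached to `x = (p, m)`, `q = p ^ m`, and a polynomial over `GF`. -/
noncomputable def SJ (r : ℕ) (x : Nat.Primes × ℕ) (g : (GF x.1 x.2)[X]) : ℤ :=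
  letI := Fintype.ofFinite (GF x.1 x.2)
  letI := Classical.decEq (GF x.1 x.2)
  ∑ t ∈ goodT g, (affN (famF g t) : ℤ) ^ r * trN (famF g t)

/-- The sum of the remainders over the points of the base. -/
noncomputable def TJ {R₀ : Type} [CommRing R₀] (f₀ : R₀[X]) (r : ℕ) (x : Nat.Primes × ℕ) : ℤ :=
  ∑ᶠ φ : R₀ →+* GF x.1 x.2, (SJ r x (f₀.map φ) + r * ((x.1 : ℤ) ^ x.2) ^ (r + 2))

/-- The logarithmic remainder. -/
noncomputable def HJ {R₀ : Type} [CommRing R₀] (f₀ : R₀[X]) (r : ℕ) (s : ℂ) : ℂ :=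
  ∑' x : Nat.Primes × ℕ, (TJ f₀ r x : ℂ) * pw s x

section aux

variable {R₀ : Type} [CommRing R₀] (h2 : IsUnit (2 : R₀))

include h2 in
lemma ha_two {k : Type*} [Field k] (φ : R₀ →+* k) : (2 : k) ≠ 0 := by
  have h := (h2.map φ).ne_zero
  rw [map_ofNat] at h
  exact h

lemma ha_card {x : Nat.Primes × ℕ} (hx : x.2 ≠ 0) [Fintype (GF x.1 x.2)] :
    Fintype.card (GF x.1 x.2) = (x.1 : ℕ) ^ x.2 := by
  rw [← Nat.card_eq_fintype_card]
  exact card_GF hx

variable {f₀ : R₀[X]} (hm : f₀.Monic) (hn : Odd f₀.natDegree) (h3 : 3 ≤ f₀.natDegree)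
include h2 hm hn h3

lemma SJ_bound (r : ℕ) {x : Nat.Primes × ℕ} (hx : x.2 ≠ 0) (φ : R₀ →+* GF x.1 x.2) :
    |((SJ r x (f₀.map φ) + r * ((x.1 : ℤ) ^ x.2) ^ (r + 2) : ℤ) : ℝ)|
      ≤ CM f₀.natDegree r * (((x.1 : ℝ) ^ x.2) ^ (r + 1) * Real.sqrt ((x.1 : ℝ) ^ x.2)) := by
  let _ := Fintype.ofFinite (GF x.1 x.2)
  let _ := Classical.decEq (GF x.1 x.2)
  have hd : (f₀.map φ).natDegree = f₀.natDegree := hm.natDegree_map φ
  have h1 := moment_main (ha_two h2 φ) (hm.map φ) (by rw [hd]; exact hn) (by rw [hd]; exact h3) r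
  have hc : Fintype.card (GF x.1 x.2) = (x.1 : ℕ) ^ x.2 := ha_card hx
  rw [hc, hd] at h1
  push_cast at h1
  rw [SJ]
  push_cast
  exact h1

variable [Algebra.FiniteType ℤ R₀]

lemma TJ_bound (r : ℕ) {x : Nat.Primes × ℕ} (hx : x.2 ≠ 0) :
    |((TJ f₀ r x : ℤ) : ℝ)| ≤ hN R₀ x *
      (CM f₀.natDegree r * (((x.1 : ℝ) ^ x.2) ^ (r + 1) * Real.sqrt ((x.1 : ℝ) ^ x.2))) := by
  let _ := Fintype.ofFinite (R₀ →+* GF x.1 x.2)
  rw [TJ, finsum_eq_sum_of_fintype]
  rw [Int.cast_sum]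
  refine (Finset.abs_sum_le_sum_abs _ _).trans ?_
  refine (Finset.sum_le_sum (fun φ _ => SJ_bound h2 hm hn h3 r hx φ)).trans ?_
  rw [Finset.sum_const, nsmul_eq_mul, Finset.card_univ, hN, Nat.card_eq_fintype_card]

lemma ha_term_bound (r : ℕ) (s : ℂ) (x : Nat.Primes × ℕ) :
    ‖(TJ f₀ r x : ℂ) * pw s x‖
      ≤ CM f₀.natDegree r * (hN R₀ x * pr (s.re - (r + 1 : ℕ) - 1 / 2) x) := by
  obtain ⟨p, n⟩ := x
  by_cases hn0 : n = 0
  · subst hn0
    simp [pw, pr]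
  · have h1 := TJ_bound h2 hm hn h3 r (x := (p, n)) hn0
    rw [norm_mul, Complex.norm_intCast, norm_pw, ← sqrt_mul_pr, ← pow_mul_pr]
    refine (mul_le_mul_of_nonneg_right h1 (pr_nonneg _ _)).trans (le_of_eq ?_)
    ring

variable {d : ℝ} (hd : ∀ σ : ℝ, d < σ → Summable fun x : Nat.Primes × ℕ => (hN R₀ x : ℝ) * pr σ x)
include hd

lemma ha_summable (r : ℕ) {s : ℂ} (hs : d + r + 3 / 2 < s.re) :
    Summable fun x : Nat.Primes × ℕ => (TJ f₀ r x : ℂ) * pw s x := by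
  apply Summable.of_norm_bounded
    (g := fun x => CM f₀.natDegree r * (hN R₀ x * pr (s.re - (r + 1 : ℕ) - 1 / 2) x))
  · apply Summable.mul_left
    apply hd
    push_cast
    linarith
  · exact ha_term_bound h2 hm hn h3 r s

end aux

lemma affC_eq {K : Type*} [Field K] [Fintype K] [DecidableEq K] (g : K[X]) :
    affC g = affN g := by
  rw [affC, affN, Nat.card_eq_fintype_card, Fintype.card_subtype]

lemma vJ_eq {R : Type*} [CommRing R] [Algebra.FiniteType ℤ R] (f : R[X]) (s : ℂ)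
    (x : Nat.Primes × ℕ) (ψ : R →+* GF x.1 x.2) [Fintype (GF x.1 x.2)]
    [DecidableEq (GF x.1 x.2)] :
    vJ f s ⟨x, ψ⟩ = (trN (f.map ψ) : ℂ) * pw s x := by
  rw [vJ]
  by_cases hx : x.2 = 0
  · obtain ⟨p, n⟩ := x
    simp only at hx
    subst hx
    simp [pw]
  · rw [affC_eq, trN, ha_card hx]
    push_cast
    rfl

lemma norm_vJ {R : Type*} [CommRing R] [Algebra.FiniteType ℤ R] (f : R[X]) (s : ℂ)
    (x : Nat.Primes × ℕ) (ψ : R →+* GF x.1 x.2) [Fintype (GF x.1 x.2)]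
    [DecidableEq (GF x.1 x.2)] :
    ‖vJ f s ⟨x, ψ⟩‖ = |(trN (f.map ψ) : ℝ)| * pr s.re x := by
  rw [vJ_eq, norm_mul, norm_pw, Complex.norm_intCast]

section total

variable {R₀ : Type} [CommRing R₀] [Algebra.FiniteType ℤ R₀] (h2 : IsUnit (2 : R₀))
  {f₀ : R₀[X]} (hm : f₀.Monic) (hn : Odd f₀.natDegree) (h3 : 3 ≤ f₀.natDegree)
include h2 hm hn h3

lemma ha_sum_abs (r : ℕ) {x : Nat.Primes × ℕ} (hx : x.2 ≠ 0)
    [Fintype ((fam f₀ r).R →+* GF x.1 x.2)] [Fintype (GF x.1 x.2)] [DecidableEq (GF x.1 x.2)] :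
    ∑ ψ : (fam f₀ r).R →+* GF x.1 x.2, |(trN ((fam f₀ r).f.map ψ) : ℝ)|
      ≤ hN R₀ x * (2 ^ r * WC f₀.natDegree *
        (((x.1 : ℝ) ^ x.2) ^ (r + 2) * Real.sqrt ((x.1 : ℝ) ^ x.2))) := by
  let _ := Fintype.ofFinite (R₀ →+* GF x.1 x.2)
  have h := sum_fam (K := GF x.1 x.2) (A := ℝ) hm h3 r (fun g => |(trN g : ℝ)|)
  rw [h]
  have hc : Fintype.card (GF x.1 x.2) = (x.1 : ℕ) ^ x.2 := ha_card hx
  have h4 : ∀ φ ∈ (Finset.univ : Finset (R₀ →+* GF x.1 x.2)), ∑ t ∈ goodT (f₀.map φ),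
        (affN (famF (f₀.map φ) t) : ℝ) ^ r * |(trN (famF (f₀.map φ) t) : ℝ)| ≤
        2 ^ r * WC f₀.natDegree *
        (((x.1 : ℝ) ^ x.2) ^ (r + 2) * Real.sqrt ((x.1 : ℝ) ^ x.2)) := by
    intro φ _
    have hd : (f₀.map φ).natDegree = f₀.natDegree := hm.natDegree_map φ
    have h1 := moment_abs (ha_two h2 φ) (hm.map φ) (by rw [hd]; exact hn) (by rw [hd]; exact h3) r
    rw [hc, hd] at h1
    push_cast at h1
    exact h1
  refine (Finset.sum_le_sum h4).trans ?_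
  rw [Finset.sum_const, nsmul_eq_mul, Finset.card_univ, hN, Nat.card_eq_fintype_card]

omit h2 hn in
lemma ha_sum (r : ℕ) {x : Nat.Primes × ℕ}
    [Fintype ((fam f₀ r).R →+* GF x.1 x.2)] :
    ∑ ψ : (fam f₀ r).R →+* GF x.1 x.2,
      ((@trN (GF x.1 x.2) _ (Fintype.ofFinite _) (Classical.decEq _) ((fam f₀ r).f.map ψ) : ℤ) : ℂ)
      = (TJ f₀ r x : ℂ) - r * (((x.1 : ℂ) ^ x.2) ^ (r + 2)) * hN R₀ x := by
  let _ := Fintype.ofFinite (R₀ →+* GF x.1 x.2)
  let _ := Fintype.ofFinite (GF x.1 x.2)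
  let _ := Classical.decEq (GF x.1 x.2)
  have h := sum_fam (K := GF x.1 x.2) (A := ℂ) hm h3 r (fun g => (trN g : ℂ))
  rw [h, TJ, finsum_eq_sum_of_fintype, hN, Nat.card_eq_fintype_card]
  push_cast
  rw [Finset.sum_add_distrib, Finset.sum_const, nsmul_eq_mul, Finset.card_univ]
  have h5 : ∀ φ : R₀ →+* GF x.1 x.2, ((SJ r x (f₀.map φ) : ℤ) : ℂ) =
      ∑ t ∈ goodT (f₀.map φ), (affN (famF (f₀.map φ) t) : ℂ) ^ r * (trN (famF (f₀.map φ) t) : ℂ) := by
    intro φ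
    rw [SJ]
    push_cast
    rfl
  simp only [h5]
  ring

variable {d : ℝ} (hd : ∀ σ : ℝ, d < σ → Summable fun x : Nat.Primes × ℕ => (hN R₀ x : ℝ) * pr σ x)
include hd

lemma summable_vJ (r : ℕ) {s : ℂ} (hs : d + r + 5 / 2 < s.re) :
    Summable (vJ (R := (fam f₀ r).R) (fam f₀ r).f s) := by
  rw [← summable_norm_iff]
  rw [summable_sigma_of_nonneg (fun _ => norm_nonneg _)]
  refine ⟨fun x => ?_, ?_⟩
  · have := finite_hom (R := (fam f₀ r).R) (GF x.1 x.2)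
    exact Summable.of_finite
  · apply Summable.of_nonneg_of_le (f := fun x => 2 ^ r * WC f₀.natDegree * (hN R₀ x
      * pr (s.re - (r + 2 : ℕ) - 1 / 2) x))
    · intro x
      exact tsum_nonneg (fun _ => norm_nonneg _)
    · intro x
      have := finite_hom (R := (fam f₀ r).R) (GF x.1 x.2)
      let _ := Fintype.ofFinite ((fam f₀ r).R →+* GF x.1 x.2)
      let _ := Fintype.ofFinite (GF x.1 x.2)
      let _ := Classical.decEq (GF x.1 x.2)
      rw [tsum_fintype]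
      simp only [norm_vJ]
      rw [← Finset.sum_mul]
      by_cases hx : x.2 = 0
      · obtain ⟨p, n⟩ := x
        simp only at hx
        subst hx
        simp [pr]
      · rw [← sqrt_mul_pr, ← pow_mul_pr]
        refine (mul_le_mul_of_nonneg_right (ha_sum_abs h2 hm hn h3 r hx) (pr_nonneg _ _)).trans
          (le_of_eq ?_)
        ring
    · apply Summable.mul_left
      apply hd
      push_cast
      linarith

lemma tsum_vJ (r : ℕ) {s : ℂ} (hs : d + r + 5 / 2 < s.re) :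
    ∑' h, vJ (R := (fam f₀ r).R) (fam f₀ r).f s h
      = HJ f₀ r s - r * LZ R₀ (s - (r + 2 : ℕ)) := by
  have h1 := summable_vJ h2 hm hn h3 hd r hs
  rw [h1.tsum_sigma]
  have h4 : ∀ x : Nat.Primes × ℕ,
      ∑' ψ : (fam f₀ r).R →+* GF x.1 x.2, vJ (R := (fam f₀ r).R) (fam f₀ r).f s ⟨x, ψ⟩
      = (TJ f₀ r x : ℂ) * pw s x - r * ((hN R₀ x : ℂ) * pw (s - (r + 2 : ℕ)) x) := by
    intro x
    have := finite_hom (R := (fam f₀ r).R) (GF x.1 x.2)
    let _ := Fintype.ofFinite ((fam f₀ r).R →+* GF x.1 x.2)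
    let _ := Fintype.ofFinite (GF x.1 x.2)
    let _ := Classical.decEq (GF x.1 x.2)
    rw [tsum_fintype]
    simp only [vJ_eq]
    rw [← Finset.sum_mul]
    have h5 := ha_sum (x := x) hm h3 r
    rw [h5, ← pow_mul_pw]
    ring
  simp only [h4]
  have h3' : Summable fun x : Nat.Primes × ℕ => (r : ℂ) * ((hN R₀ x : ℂ) * pw (s - (r + 2 : ℕ)) x) := by
    apply Summable.mul_left
    rw [← summable_norm_iff]
    simp only [norm_mul, Complex.norm_natCast, norm_pw]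
    apply hd
    simp only [Complex.sub_re, Complex.natCast_re]
    push_cast
    linarith
  rw [(ha_summable h2 hm hn h3 hd r (by linarith)).tsum_sub h3', tsum_mul_left]
  rfl

end total

variable {R₀ : Type} [CommRing R₀] [Algebra.FiniteType ℤ R₀] (h2 : IsUnit (2 : R₀))
  {d : ℝ} (hd : ∀ σ : ℝ, d < σ → Summable fun x : Nat.Primes × ℕ => (hN R₀ x : ℝ) * pr σ x)
  {f₀ : R₀[X]} (hm : f₀.Monic) (hn : Odd f₀.natDegree) (h3 : 3 ≤ f₀.natDegree)
include h2 hd hm hn h3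

/-- The remainder is holomorphic. -/
theorem differentiableOn_HJ (r : ℕ) :
    DifferentiableOn ℂ (HJ f₀ r) {s : ℂ | d + r + 3 / 2 < s.re} := by
  intro s hs
  have hs' : d + r + 3 / 2 < s.re := hs
  obtain ⟨τ, h4, h5⟩ := exists_between hs'
  have hopen : IsOpen {s : ℂ | τ < s.re} := isOpen_lt continuous_const Complex.continuous_re
  have key : DifferentiableOn ℂ (HJ f₀ r) {s : ℂ | τ < s.re} := by
    apply Complex.differentiableOn_tsum_of_summable_norm
      (u := fun x => CM f₀.natDegree r * (hN R₀ x * pr (τ - (r + 1 : ℕ) - 1 / 2) x))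
    · apply Summable.mul_left
      apply hd
      push_cast
      linarith
    · intro x
      exact ((differentiable_pw x).const_mul _).differentiableOn
    · exact hopen
    · intro x w hw
      refine (ha_term_bound h2 hm hn h3 r w x).trans ?_
      have hw' : τ ≤ w.re := le_of_lt hw
      apply mul_le_mul_of_nonneg_left _ (by positivity)
      apply mul_le_mul_of_nonneg_left _ (by positivity)
      apply pr_anti
      linarith
  exact ((key s h5).differentiableAt (hopen.mem_nhds h5)).differentiableWithinAt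

/-- The Euler product of the family with `r` marked points. -/
theorem hasProd_fam (hd0 : 0 ≤ d) (r : ℕ) {s : ℂ} (hs : d + r + 5 / 2 < s.re) :
    HasProd (fun m : MaximalSpectrum (fam f₀ r).R => localFactor (fam f₀ r).f m s)
      (Complex.exp (HJ f₀ r s - r * LZ R₀ (s - (r + 2 : ℕ)))) := by
  have h := euler_prod (R := (fam f₀ r).R) (fam f₀ r).f (s := s) (summable_vJ h2 hm hn h3 hd r hs)
  rw [tsum_vJ h2 hm hn h3 hd r hs] at h
  exact h

end Pool.Agent.HypJac
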