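import Mathlib
import Pool.Agent.HypJac.HAnalytic

/-!
# The base `ℤ[1/N][t_1, …, t_l]`, unconditionally

PROOF. `hN_mv`: a homomorphism `MvPolynomial (Fin l) R₀ → GF x` is a homomorphism `R₀ → GF x` and `l` elements of `GF x` (`#GF x = p^m` for `x = (p, m)`, `m ≠ 0`, `card_GF`; finiteness: `finite_hom`). So `hN * pw s x = hN R₀ x * pw (s - l) x` (`pow_mul_pw`; both sides vanish for
`m = 0`), `LZ (MvPolynomial (Fin l) R₀) s = LZ R₀ (s - l)`. `ZN_continuation_fam`: as Hhelper85/UCmain.lean (`Phi`, `order_Phi`, `hasProd_Phi`) with `Φ(s) = exp (HJ f₀ r s) * ((riemannZeta (s - (r + 2) - l) * PN N (s - (r + 2) - l)) ^ r)⁻¹`, `d = l + 1`, `summable_hN_ZN`, `exp_LZ_ZN`,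
`order_zeta`, `meromorphicAt_zeta`, `PN_differentiable`, `PN_one_ne`, `hasProd_fam`, `differentiableOn_HJ`. `2` is a unit in `ZN N` as `2 ∣ N`.
-/

namespace Pool.Agent.HypJac

open Polynomial Pool.Agent.HypTate Pool.Agent.TateBSD Pool.Agent.Hhelper85

local instance hzn_primeFact (p : Nat.Primes) : Fact (p : ℕ).Prime := ⟨p.2⟩

instance ft_PolyZN (N l : ℕ) : Algebra.FiniteType ℤ (PolyZN N l) := by
  have h : @Algebra.FiniteType ℤ (MvPolynomial (Fin l) (ZN N)) _ _ (Ring.toIntAlgebra _) :=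
    ft_trans (A := ZN N) (B := MvPolynomial (Fin l) (ZN N)) (ft_ZN N) inferInstance
  exact h

/-- Homomorphisms from a polynomial ring. -/
noncomputable def hznEquiv (R₀ S : Type) [CommRing R₀] [CommRing S] (l : ℕ) :
    (MvPolynomial (Fin l) R₀ →+* S) ≃ (R₀ →+* S) × (Fin l → S) where
  toFun φ := (φ.comp MvPolynomial.C, fun i => φ (MvPolynomial.X i))
  invFun p := MvPolynomial.eval₂Hom p.1 p.2
  left_inv φ := by
    apply MvPolynomial.ringHom_ext
    · intro r
      simp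
    · intro i
      simp
  right_inv p := by
    ext i
    · simp
    · simp

lemma hN_mv (R₀ : Type) [CommRing R₀] [Algebra.FiniteType ℤ R₀] (l : ℕ) {x : Nat.Primes × ℕ}
    (hx : x.2 ≠ 0) : hN (MvPolynomial (Fin l) R₀) x = hN R₀ x * ((x.1 : ℕ) ^ x.2) ^ l := by
  unfold hN
  rw [Nat.card_congr (hznEquiv R₀ (GF x.1 x.2) l), Nat.card_prod, Nat.card_fun, card_GF hx,
    Nat.card_fin]

lemma domain_ZN {N : ℕ} (hN : N ≠ 0) : IsDomain (ZN N) :=
  IsLocalization.isDomain_localization (powers_le_nonZeroDivisors_of_noZeroDivisors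
    (by exact_mod_cast hN : (N : ℤ) ≠ 0))

lemma charZero_ZN {N : ℕ} (hN : N ≠ 0) : CharZero (ZN N) := by
  have h : Function.Injective (algebraMap ℤ (ZN N)) :=
    IsLocalization.injective (ZN N) (powers_le_nonZeroDivisors_of_noZeroDivisors
      (by exact_mod_cast hN : (N : ℤ) ≠ 0))
  exact charZero_of_injective_ringHom h

lemma domain_PolyZN {N : ℕ} (hN : N ≠ 0) (l : ℕ) : IsDomain (PolyZN N l) := by
  have := domain_ZN hN
  exact inferInstanceAs (IsDomain (MvPolynomial (Fin l) (ZN N)))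

lemma charZero_PolyZN {N : ℕ} (hN : N ≠ 0) (l : ℕ) : CharZero (PolyZN N l) := by
  have := charZero_ZN hN
  have h : CharZero (MvPolynomial (Fin l) (ZN N)) :=
    charZero_of_injective_ringHom (MvPolynomial.C_injective (Fin l) (ZN N))
  exact h

lemma hzn_unit2 {N : ℕ} (h2N : 2 ∣ N) : IsUnit (2 : ZN N) := by
  obtain ⟨m, rfl⟩ := h2N
  have h1 : IsUnit (algebraMap ℤ (ZN (2 * m)) ((2 * m : ℕ) : ℤ)) :=
    IsLocalization.Away.algebraMap_isUnit _
  have h2 : algebraMap ℤ (ZN (2 * m)) ((2 * m : ℕ) : ℤ) = 2 * (m : ZN (2 * m)) := by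
    push_cast
    simp
  rw [h2] at h1
  exact isUnit_of_mul_isUnit_left h1

lemma hzn_unit2' {N : ℕ} (h2N : 2 ∣ N) (l : ℕ) : IsUnit (2 : PolyZN N l) := by
  have h := (hzn_unit2 h2N).map (MvPolynomial.C (σ := Fin l) (R := ZN N))
  rw [map_ofNat] at h
  exact h

lemma hzn_hN (N l : ℕ) {x : Nat.Primes × ℕ} (hx : x.2 ≠ 0) :
    hN (PolyZN N l) x = hN (ZN N) x * ((x.1 : ℕ) ^ x.2) ^ l :=
  hN_mv (ZN N) l hx

lemma hzn_summable (N l : ℕ) {σ : ℝ} (hσ : (l : ℝ) + 1 < σ) :
    Summable fun x : Nat.Primes × ℕ => (hN (PolyZN N l) x : ℝ) * pr σ x := by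
  have h := summable_hN_ZN N (σ := σ - l) (by linarith)
  refine h.congr fun x => ?_
  by_cases hx : x.2 = 0
  · simp [pr, hx]
  · rw [hzn_hN N l hx, ← pow_mul_pr]
    push_cast
    ring

lemma hzn_LZ (N l : ℕ) (s : ℂ) : LZ (PolyZN N l) s = LZ (ZN N) (s - l) := by
  unfold LZ
  refine tsum_congr fun x => ?_
  by_cases hx : x.2 = 0
  · simp [pw, hx]
  · rw [hzn_hN N l hx, ← pow_mul_pw]
    push_cast
    ring

lemma hzn_mero (N : ℕ) (c s : ℂ) :
    MeromorphicAt (fun s : ℂ => riemannZeta (s - c) * PN N (s - c)) s := by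
  have hg : AnalyticAt ℂ (fun s : ℂ => s - c) s := analyticAt_id.sub analyticAt_const
  have h1 : MeromorphicAt (riemannZeta ∘ fun s : ℂ => s - c) s :=
    (meromorphicAt_zeta _).comp_analyticAt hg
  have h2 : AnalyticAt ℂ (fun s : ℂ => PN N (s - c)) s :=
    (PN_differentiable.analyticAt _).comp hg
  exact h1.mul h2.meromorphicAt

lemma hzn_order (N : ℕ) (c : ℂ) :
    meromorphicOrderAt (fun s : ℂ => riemannZeta (s - c) * PN N (s - c)) (c + 1) = (-1 : ℤ) := by
  have hg : AnalyticAt ℂ (fun s : ℂ => s - c) (c + 1) := analyticAt_id.sub analyticAt_const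
  have e1 : c + 1 - c = 1 := by ring
  have h3 : AnalyticAt ℂ (fun s : ℂ => PN N (s - c)) (c + 1) :=
    (PN_differentiable.analyticAt _).comp hg
  have h4 : meromorphicOrderAt (fun s : ℂ => riemannZeta (s - c)) (c + 1) = (-1 : ℤ) := by
    have := meromorphicOrderAt_comp_sub_const_eq_meromorphicOrderAt (f := riemannZeta)
      (c := c) (x := c + 1)
    rw [e1] at this
    rw [← order_zeta, ← this]
    rfl
  have h6 := meromorphicOrderAt_mul_of_ne_zero (f := fun s : ℂ => riemannZeta (s - c)) h3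
    (by rw [e1]; exact PN_one_ne)
  rw [← h4, ← h6]
  congr 1
  ext s
  simp only [Pi.mul_apply]
  ring

/-- Polynomial rings over `ℤ[1/N]`, unconditionally. -/
theorem ZN_continuation_fam {N : ℕ} (hN : N ≠ 0) (h2N : 2 ∣ N) (l : ℕ)
    {f₀ : (PolyZN N l)[X]}
    (hm : f₀.Monic) (hn : Odd f₀.natDegree) (h3 : 3 ≤ f₀.natDegree) (r : ℕ) :
    ∃ Φ : ℂ → ℂ, MeromorphicOn Φ {s : ℂ | (l : ℝ) + r + 5 / 2 < s.re} ∧
      (∀ s : ℂ, (l : ℝ) + r + 7 / 2 < s.re →
        HasProd (fun m : MaximalSpectrum (fam f₀ r).R => localFactor (fam f₀ r).f m s) (Φ s)) ∧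
      meromorphicOrderAt Φ ((l : ℂ) + r + 3) = r := by
  have h2 : IsUnit (2 : PolyZN N l) := hzn_unit2' h2N l
  have hd : ∀ σ : ℝ, (l : ℝ) + 1 < σ →
      Summable fun x : Nat.Primes × ℕ => (Pool.Agent.Hhelper85.hN (PolyZN N l) x : ℝ) * pr σ x :=
    fun σ hσ => hzn_summable N l hσ
  set c : ℂ := (r : ℂ) + 2 + l with hc
  have hdiff := differentiableOn_HJ h2 hd hm hn h3 r
  have hana : ∀ s : ℂ, (l : ℝ) + r + 5 / 2 < s.re → AnalyticAt ℂ (HJ f₀ r) s := by
    intro s hs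
    apply hdiff.analyticAt
    apply (isOpen_lt continuous_const Complex.continuous_re).mem_nhds
    show (l : ℝ) + 1 + r + 3 / 2 < s.re
    linarith
  refine ⟨fun s => Complex.exp (HJ f₀ r s) * ((riemannZeta (s - c) * PN N (s - c)) ^ r)⁻¹,
    ?_, ?_, ?_⟩
  · intro s hs
    have h1 := (hana s hs).cexp.meromorphicAt
    have h4 := ((hzn_mero N c s).pow r).inv
    exact h1.mul h4
  · intro s hs
    have h1 := hasProd_fam h2 hd hm hn h3 (by positivity : (0 : ℝ) ≤ (l : ℝ) + 1) r (s := s)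
      (by linarith)
    have h4 : 1 < (s - c).re := by
      rw [hc]
      simp only [Complex.sub_re, Complex.add_re, Complex.natCast_re, Complex.re_ofNat]
      linarith
    have e : s - ((r + 2 : ℕ) : ℂ) - l = s - c := by
      rw [hc]
      push_cast
      ring
    have h5 : Complex.exp (HJ f₀ r s) * ((riemannZeta (s - c) * PN N (s - c)) ^ r)⁻¹ =
        Complex.exp (HJ f₀ r s - r * LZ (PolyZN N l) (s - (r + 2 : ℕ))) := by
      rw [Complex.exp_sub, Complex.exp_nat_mul, hzn_LZ, e, exp_LZ_ZN hN h4, div_eq_mul_inv]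
    simp only [h5]
    exact h1
  · have ec : (l : ℂ) + r + 3 = c + 1 := by
      rw [hc]
      ring
    rw [ec]
    have hs : (l : ℝ) + r + 5 / 2 < (c + 1).re := by
      rw [hc]
      simp only [Complex.add_re, Complex.natCast_re, Complex.re_ofNat, Complex.one_re]
      linarith
    have h1 := (hana (c + 1) hs).cexp
    have h7 : meromorphicOrderAt (fun s => Complex.exp (HJ f₀ r s) *
        ((riemannZeta (s - c) * PN N (s - c)) ^ r)⁻¹) (c + 1) =
        meromorphicOrderAt (((fun s : ℂ => riemannZeta (s - c) * PN N (s - c)) ^ r)⁻¹) (c + 1) :=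
      meromorphicOrderAt_mul_of_ne_zero h1 (Complex.exp_ne_zero _)
    rw [h7, meromorphicOrderAt_inv, meromorphicOrderAt_pow (hzn_mero N c (c + 1)), hzn_order]
    norm_cast
    simp

end Pool.Agent.HypJac
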