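import Mathlib

/-!
# Coordinate rings of affine hyperelliptic curves over `k`-algebras

`k` is a field, `f : k[X]`, and `H f A = A[x][y] / (y² - f(x))` for a `k`-algebra `A`.
-/

namespace Pool.Agent.HypJac

open Polynomial

/-- The standing assumption on the polynomial `f`: monic, of odd degree, separable, and the
characteristic is not two. -/
class HypPoly {k : Type*} [Field k] (f : k[X]) : Prop where
  /-- the characteristic is not two -/
  two : (2 : k) ≠ 0
  /-- `f` is monic -/
  monic : f.Monic
  /-- the degree is odd -/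
  odd : Odd f.natDegree
  /-- the degree is at least three -/
  three : 3 ≤ f.natDegree
  /-- `f` is separable -/
  cop : IsCoprime f (derivative f)

variable {k : Type*} [Field k] (f : k[X])

/-- The polynomial `f` over a `k`-algebra. -/
noncomputable abbrev fA (A : Type*) [CommRing A] [Algebra k A] : A[X] :=
  f.map (algebraMap k A)

/-- `A[x][y] / (y² - f(x))`; the element `⟨a, b⟩` is `a(x) + b(x) y`. -/
abbrev H (A : Type*) [CommRing A] [Algebra k A] : Type _ :=
  QuadraticAlgebra A[X] (fA f A) 0

/-- The genus: `2 * gen f + 1 = f.natDegree`. -/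
def gen : ℕ := f.natDegree / 2

lemma natDegree_eq [HypPoly f] : f.natDegree = 2 * gen f + 1 := by
  have := HypPoly.odd (f := f)
  unfold gen
  obtain ⟨m, hm⟩ := this
  omega

lemma gen_pos [HypPoly f] : 0 < gen f := by
  have := HypPoly.three (f := f)
  have := natDegree_eq f
  omega

/-- The coordinate `x`. -/
noncomputable def xH (A : Type*) [CommRing A] [Algebra k A] : H f A := ⟨X, 0⟩

/-- The coordinate `y`. -/
noncomputable def yH (A : Type*) [CommRing A] [Algebra k A] : H f A := ⟨0, 1⟩

/-- A polynomial as an element of `H f A`. -/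
noncomputable def cH (A : Type*) [CommRing A] [Algebra k A] : A[X] →+* H f A :=
  algebraMap A[X] (H f A)

section map

variable {f} {A B C : Type*} [CommRing A] [Algebra k A] [CommRing B] [Algebra k B]
  [CommRing C] [Algebra k C]

lemma map_fA (φ : A →ₐ[k] B) : (fA f A).map (φ : A →+* B) = fA f B := by
  rw [fA, fA, Polynomial.map_map]
  congr 1
  exact φ.comp_algebraMap

variable (f) in
/-- Functoriality in the coefficient algebra. -/
noncomputable def mapH (φ : A →ₐ[k] B) : H f A →+* H f B where
  toFun a := ⟨a.re.map (φ : A →+* B), a.im.map (φ : A →+* B)⟩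
  map_one' := by ext1 <;> simp [QuadraticAlgebra.re_one, QuadraticAlgebra.im_one]
  map_zero' := by ext <;> simp
  map_add' a b := by ext <;> simp
  map_mul' a b := by
    have h := map_fA (f := f) φ
    ext1
    · simp only [QuadraticAlgebra.re_mul, Polynomial.map_add, Polynomial.map_mul, h]
    · simp only [QuadraticAlgebra.im_mul, Polynomial.map_add, Polynomial.map_mul, zero_mul,
        add_zero]

@[simp] lemma mapH_re (φ : A →ₐ[k] B) (a : H f A) :
    (mapH f φ a).re = a.re.map (φ : A →+* B) := rfl

@[simp] lemma mapH_im (φ : A →ₐ[k] B) (a : H f A) :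
    (mapH f φ a).im = a.im.map (φ : A →+* B) := rfl

lemma mapH_injective {φ : A →ₐ[k] B} (hφ : Function.Injective φ) :
    Function.Injective (mapH f φ) := by
  intro a b hab
  have h1 := congrArg QuadraticAlgebra.re hab
  have h2 := congrArg QuadraticAlgebra.im hab
  simp only [mapH_re, mapH_im] at h1 h2
  ext1
  · exact Polynomial.map_injective _ hφ h1
  · exact Polynomial.map_injective _ hφ h2

lemma mapH_surjective {φ : A →ₐ[k] B} (hφ : Function.Surjective φ) :
    Function.Surjective (mapH f φ) := by
  intro b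
  obtain ⟨p, hp⟩ := Polynomial.map_surjective (φ : A →+* B) hφ b.re
  obtain ⟨q, hq⟩ := Polynomial.map_surjective (φ : A →+* B) hφ b.im
  exact ⟨⟨p, q⟩, by ext1 <;> simp [hp, hq]⟩

lemma mapH_comp (φ : A →ₐ[k] B) (ψ : B →ₐ[k] C) :
    (mapH f ψ).comp (mapH f φ) = mapH f (ψ.comp φ) := by
  ext a <;> simp [Polynomial.map_map]

@[simp] lemma mapH_xH (φ : A →ₐ[k] B) : mapH f φ (xH f A) = xH f B := by
  ext1 <;> simp [xH]

@[simp] lemma mapH_yH (φ : A →ₐ[k] B) : mapH f φ (yH f A) = yH f B := by
  ext1 <;> simp [yH]

@[simp] lemma cH_re (a : A[X]) : (cH f A a).re = a := rfl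

@[simp] lemma cH_im (a : A[X]) : (cH f A a).im = 0 := rfl

@[simp] lemma mapH_cH (φ : A →ₐ[k] B) (a : A[X]) :
    mapH f φ (cH f A a) = cH f B (a.map (φ : A →+* B)) := by
  ext1 <;> simp

lemma cH_injective : Function.Injective (cH f A) := by
  intro a b h
  exact congrArg QuadraticAlgebra.re h

lemma eq_cH_add (a : H f A) : a = cH f A a.re + cH f A a.im * yH f A := by
  ext1 <;> simp [yH]

lemma yH_sq : yH f A * yH f A = cH f A (fA f A) := by
  ext1 <;> simp [yH]

end map

end Pool.Agent.HypJac
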