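import Mathlib
import Pool.Agent.HypJac.Defs

/-!
# `H f A` is a domain, and a Dedekind domain over a field

PROOF SKETCH.
(1) `IsDomain (H f A)`, `A` a domain: for `z = a + b y` put `N z = a² - f b²` (`QuadraticAlgebra.norm`, multiplicative).
`N z = 0` implies `z = 0`: if `b ≠ 0` then `a² = f b²` is impossible since `natDegree f = 2 g + 1` is odd and `fA f A` is
monic of the same degree (`Monic.natDegree_map`). So `z w = 0` gives `N z * N w = 0`. Alternatively use
`QuadraticAlgebra` over the fraction field.
(2) `IsNoetherianRing`: `H f A` is a finite module over the noetherian ring `A[X]` (`isNoetherian_of_isNoetherianRing_of_finite`,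
`isNoetherianRing_of ...`).
(3) `IsDedekindDomain (H f E)`, `E` a field: noetherian by (2); dimension ≤ 1 since it is integral over the PID `E[X]`
(`Ring.DimensionLEOne`, e.g. `Ring.DimensionLEOne.isIntegralClosure`, or `Ideal.IsMaximal` from integrality); integrally closed:
let `L = FractionRing (H f E)`; every element of `L` is `p + q y` with `p, q ∈ E(X)`; if it is integral over `E[X]`
(equivalently over `H f E`) then trace `2p` and norm `p² - q² f` are in `E[X]`, so `p ∈ E[X]`, `q² f ∈ E[X]`, and `q ∈ E[X]`
because `f` is squarefree (`HypPoly.cop` stays coprime after base change). One can use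
`IsIntegralClosure.isDedekindDomain`, or `integralClosure.isDedekindDomain` for the separable extension
`L / FractionRing E[X]` (characteristic zero) and show that the integral closure of `E[X]` in `L` is the range of `H f E`.
-/

namespace Pool.Agent.HypJac

open Polynomial

variable {k : Type*} [Field k] {f : k[X]} [HypPoly f]

private lemma ded_norm_eq_zero {A : Type*} [CommRing A] [Algebra k A] [IsDomain A] {z : H f A}
    (hz : z.norm = 0) : z = 0 := by
  have hF : (fA f A).Monic := (HypPoly.monic (f := f)).map _
  rw [QuadraticAlgebra.norm_def] at hz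
  have h1 : z.re * z.re = fA f A * (z.im * z.im) := by linear_combination hz
  have him : z.im = 0 := by
    by_contra him
    have hre : z.re ≠ 0 := by
      intro h
      rw [h, mul_zero] at h1
      exact mul_ne_zero hF.ne_zero (mul_ne_zero him him) h1.symm
    have h2 := congrArg natDegree h1
    rw [natDegree_mul hre hre, natDegree_mul hF.ne_zero (mul_ne_zero him him),
      natDegree_mul him him, (HypPoly.monic (f := f)).natDegree_map] at h2
    obtain ⟨m, hm⟩ := HypPoly.odd (f := f)
    omega
  rw [him, mul_zero, mul_zero] at h1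
  have hre : z.re = 0 := by simpa using h1
  exact QuadraticAlgebra.ext hre him

instance instIsDomainH {A : Type*} [CommRing A] [Algebra k A] [IsDomain A] :
    IsDomain (H f A) := by
  have : NoZeroDivisors (H f A) := ⟨by
    intro a b hab
    have h := congrArg QuadraticAlgebra.norm hab
    rw [map_mul, QuadraticAlgebra.norm_zero, mul_eq_zero] at h
    exact h.imp ded_norm_eq_zero ded_norm_eq_zero⟩
  exact NoZeroDivisors.to_isDomain _

omit [HypPoly f] in
private lemma ded_noeth {A : Type*} [CommRing A] [Algebra k A] [IsNoetherianRing A] :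
    IsNoetherianRing (H f A) :=
  IsNoetherianRing.of_finite A[X] (H f A)

private lemma ded_squarefree (f : k[X]) [HypPoly f] (E : Type*) [Field E] [Algebra k E] :
    Squarefree (fA f E) := by
  have h : f.Separable := HypPoly.cop (f := f)
  exact (h.map (f := algebraMap k E)).squarefree

private lemma ded_dvd {E : Type*} [Field E] {F r b : E[X]} (hF : Squarefree F) (hr : r ≠ 0)
    (h : r * r ∣ F * (b * b)) : r ∣ b := by
  classical
  have hcop := isCoprime_div_gcd_div_gcd (p := b) (q := r) hr
  have hg0 : GCDMonoid.gcd b r ≠ 0 := gcd_ne_zero_of_right hr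
  have hb := EuclideanDomain.mul_div_cancel' hg0 (gcd_dvd_left b r)
  have hr' := EuclideanDomain.mul_div_cancel' hg0 (gcd_dvd_right b r)
  set g := GCDMonoid.gcd b r with hg
  set b' := b / g with hb'
  set r' := r / g with hr''
  have h2 : (g * g) * (r' * r') ∣ (g * g) * (F * (b' * b')) := by
    have e1 : (g * g) * (r' * r') = r * r := by rw [← hr']; ring
    have e2 : (g * g) * (F * (b' * b')) = F * (b * b) := by rw [← hb]; ring
    rw [e1, e2]; exact h
  have h3 : r' * r' ∣ F * (b' * b') := (mul_dvd_mul_iff_left (mul_ne_zero hg0 hg0)).1 h2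
  have h4 : IsCoprime (r' * r') (b' * b') :=
    (hcop.symm.mul_left hcop.symm).mul_right (hcop.symm.mul_left hcop.symm)
  have h5 : r' * r' ∣ F := h4.dvd_of_dvd_mul_right h3
  have h6 : IsUnit r' := hF r' h5
  rw [← hr']
  rw [← hb]
  exact mul_dvd_mul_left g (h6.dvd)

private lemma ded_int {R L : Type*} [CommRing R] [IsDomain R] [IsIntegrallyClosed R] [Field L]
    [Algebra R L] (hinj : Function.Injective (algebraMap R L)) {s r : R} (hr : r ≠ 0)
    (h : IsIntegral R (algebraMap R L s / algebraMap R L r)) : r ∣ s := by
  have : FaithfulSMul R L := (faithfulSMul_iff_algebraMap_injective R L).2 hinj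
  let := FractionRing.liftAlgebra R L
  have := FractionRing.isScalarTower_liftAlgebra R L
  have e : algebraMap R L s / algebraMap R L r =
      algebraMap (FractionRing R) L
        (algebraMap R (FractionRing R) s / algebraMap R (FractionRing R) r) := by
    rw [map_div₀, ← IsScalarTower.algebraMap_apply, ← IsScalarTower.algebraMap_apply]
  rw [e, isIntegral_algebraMap_iff (algebraMap (FractionRing R) L).injective] at h
  obtain ⟨y, hy⟩ := (isIntegrallyClosed_iff (FractionRing R)).1 inferInstance h
  refine ⟨y, ?_⟩
  apply IsFractionRing.injective R (FractionRing R)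
  have hr0 : algebraMap R (FractionRing R) r ≠ 0 :=
    fun h0 => hr ((IsFractionRing.injective R (FractionRing R)) (by rw [h0, map_zero]))
  rw [map_mul, hy, mul_div_cancel₀ _ hr0]

private lemma ded_closed {E : Type*} [Field E] [Algebra k E] {L : Type*} [Field L]
    [Algebra (H f E) L] [IsFractionRing (H f E) L] {x : L} (hx : IsIntegral (H f E) x) :
    ∃ y, algebraMap (H f E) L y = x := by
  have h2 : (2 : E) ≠ 0 := by
    have := HypPoly.two (f := f)
    intro h
    apply this
    apply (algebraMap k E).injective
    rw [map_ofNat, map_zero, h]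
  let : Algebra E[X] L := ((algebraMap (H f E) L).comp (algebraMap E[X] (H f E))).toAlgebra
  have : IsScalarTower E[X] (H f E) L := IsScalarTower.of_algebraMap_eq (fun _ => rfl)
  have hinjB : Function.Injective (algebraMap (H f E) L) := IsFractionRing.injective _ _
  have hinjR : Function.Injective (algebraMap E[X] (H f E)) := cH_injective (f := f)
  have hinj : Function.Injective (algebraMap E[X] L) := hinjB.comp hinjR
  -- write `x = w / r`
  obtain ⟨w, r, hr, hw⟩ : ∃ (w : H f E) (r : E[X]), r ≠ 0 ∧
      x = algebraMap (H f E) L w / algebraMap E[X] L r := by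
    obtain ⟨z, d, hd, rfl⟩ := IsFractionRing.div_surjective (A := H f E) x
    have hd0 : d ≠ 0 := nonZeroDivisors.ne_zero hd
    have hn0 : d.norm ≠ 0 := fun h => hd0 (ded_norm_eq_zero h)
    refine ⟨z * star d, d.norm, hn0, ?_⟩
    have hsd : algebraMap E[X] L d.norm =
        algebraMap (H f E) L d * algebraMap (H f E) L (star d) := by
      rw [IsScalarTower.algebraMap_apply E[X] (H f E) L,
        QuadraticAlgebra.algebraMap_norm_eq_mul_star, map_mul]
    have hd1 : algebraMap (H f E) L d ≠ 0 := by
      rw [Ne, map_eq_zero_iff _ hinjB]; exact hd0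
    have hn1 : algebraMap E[X] L d.norm ≠ 0 := by
      rw [Ne, map_eq_zero_iff _ hinj]; exact hn0
    have hs1 : algebraMap (H f E) L (star d) ≠ 0 := by
      intro h
      rw [hsd, h, mul_zero] at hn1
      exact hn1 rfl
    rw [hsd, map_mul, mul_div_mul_right _ _ hs1]
  -- the conjugation
  let σB : H f E ≃+* H f E := starRingAut
  let σ : L ≃+* L := IsFractionRing.ringEquivOfRingEquiv σB
  have hσ : ∀ b : H f E, σ (algebraMap (H f E) L b) = algebraMap (H f E) L (star b) := by
    intro b
    exact IsFractionRing.ringEquivOfRingEquiv_algebraMap σB b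
  have hstarR : ∀ s : E[X], star (algebraMap E[X] (H f E) s) = algebraMap E[X] (H f E) s := by
    intro s
    ext1 <;> simp
  have hσR : ∀ s : E[X], σ (algebraMap E[X] L s) = algebraMap E[X] L s := by
    intro s
    rw [IsScalarTower.algebraMap_apply E[X] (H f E) L, hσ, hstarR]
  have hxR : IsIntegral E[X] x := isIntegral_trans _ hx
  have hσx : IsIntegral E[X] (σ x) := by
    refine hxR.map_of_comp_eq (RingHom.id E[X]) (σ : L →+* L) ?_
    refine RingHom.ext fun s => ?_
    exact (hσR s).symm
  have hwσ : σ x = algebraMap (H f E) L (star w) / algebraMap E[X] L r := by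
    rw [hw, map_div₀, hσ, hσR]
  have htr : IsIntegral E[X] (algebraMap E[X] L (2 * w.re) / algebraMap E[X] L r) := by
    have h := hxR.add hσx
    have e : x + σ x = algebraMap E[X] L (2 * w.re) / algebraMap E[X] L r := by
      rw [hwσ, hw, ← add_div, ← map_add, IsScalarTower.algebraMap_apply E[X] (H f E) L (2 * w.re)]
      congr 2
      ext1
      · simp [two_mul]
      · simp
    rwa [e] at h
  have hnm : IsIntegral E[X] (algebraMap E[X] L w.norm / algebraMap E[X] L (r * r)) := by
    have h := hxR.mul hσx
    have e : x * σ x = algebraMap E[X] L w.norm / algebraMap E[X] L (r * r) := by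
      rw [hwσ, hw, div_mul_div_comm, ← map_mul, ← map_mul,
        ← QuadraticAlgebra.algebraMap_norm_eq_mul_star,
        IsScalarTower.algebraMap_apply E[X] (H f E) L w.norm]
    rwa [e] at h
  obtain ⟨c, hc⟩ := ded_int hinj hr htr
  have hd := ded_int hinj (mul_ne_zero hr hr) hnm
  have h2C : C (2⁻¹ : E) * 2 = (1 : E[X]) := by
    have : (2 : E[X]) = C 2 := (map_ofNat C 2).symm
    rw [this, ← C_mul, inv_mul_cancel₀ h2, C_1]
  have ha : w.re = r * (C (2⁻¹ : E) * c) := by
    linear_combination C (2⁻¹ : E) * hc - w.re * h2C
  have hb : r * r ∣ fA f E * (w.im * w.im) := by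
    obtain ⟨e, he⟩ := hd
    rw [QuadraticAlgebra.norm_def] at he
    refine ⟨(C (2⁻¹ : E) * c) * (C (2⁻¹ : E) * c) - e, ?_⟩
    rw [ha] at he
    linear_combination -he
  obtain ⟨q, hq⟩ := ded_dvd (ded_squarefree f E) hr hb
  have hr1 : algebraMap E[X] L r ≠ 0 := by
    rw [Ne, map_eq_zero_iff _ hinj]; exact hr
  refine ⟨⟨C (2⁻¹ : E) * c, q⟩, ?_⟩
  rw [hw, eq_div_iff hr1, IsScalarTower.algebraMap_apply E[X] (H f E) L, ← map_mul]
  congr 1
  ext1
  · simp [ha, mul_comm]
  · simp [hq, mul_comm]

instance instIsDedekindDomainH {E : Type*} [Field E] [Algebra k E] :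
    IsDedekindDomain (H f E) := by
  rw [isDedekindDomain_iff (H f E) (FractionRing (H f E))]
  refine ⟨inferInstance, ded_noeth, Ring.DimensionLEOne.of_isIntegral E[X] (H f E), ?_⟩
  intro x hx
  exact ded_closed hx

instance instIsNoetherianRingH {A : Type*} [CommRing A] [Algebra k A] [IsNoetherianRing A] :
    IsNoetherianRing (H f A) :=
  ded_noeth

end Pool.Agent.HypJac
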