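import Mathlib
import Pool.Agent.HypJac.Defs

/-!
# The square root of the reversed polynomial in `k⟦X⟧`

PROOF SKETCH. `f` monic so `f.reverse` has constant coefficient `1`; `2` is invertible in `k` (`HypPoly.two`). Construct `T`
by recursion `t_0 = 1`, `t_n = (r_n - ∑_{0<i<n} t_i t_{n-i}) / 2` (strong recursion), or by Hensel's lemma
(`k⟦X⟧` is complete/henselian), or Newton iteration.
-/

namespace Pool.Agent.HypJac

open Polynomial

variable {k : Type*} [Field k] (f : k[X]) [HypPoly f]

/-- The coefficients of the square root of a power series with constant coefficient one. -/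
noncomputable def sqrtCoeff (r : ℕ → k) : ℕ → k
  | 0 => 1
  | (n + 1) => (r (n + 1) - ∑ i : Fin n, sqrtCoeff r (i.1 + 1) * sqrtCoeff r (n - i.1)) / 2
decreasing_by
  · have := i.2; omega
  · have := i.2; omega

/-- `X^n f(1/X)` has constant coefficient one, hence a square root in `k⟦X⟧`. -/
lemma exists_sqrt : ∃ T : PowerSeries k, T ^ 2 = (f.reverse : PowerSeries k) ∧
    PowerSeries.constantCoeff T = 1 := by
  set r : ℕ → k := fun n => f.reverse.coeff n with hr
  have h2 : (2 : k) ≠ 0 := HypPoly.two (f := f)
  have hm : f.Monic := HypPoly.monic (f := f)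
  refine ⟨PowerSeries.mk (sqrtCoeff r), ?_, ?_⟩
  · ext n
    rw [sq, PowerSeries.coeff_mul, Polynomial.coeff_coe,
      Finset.Nat.sum_antidiagonal_eq_sum_range_succ_mk]
    simp only [PowerSeries.coeff_mk]
    rcases n with _ | n
    · simp [sqrtCoeff, hm.leadingCoeff]
    · rw [Finset.sum_range_succ', Finset.sum_range_succ]
      simp only [Nat.sub_self, Nat.add_sub_add_right, Nat.sub_zero]
      have h0 : sqrtCoeff r 0 = 1 := by rw [sqrtCoeff]
      have h1 : sqrtCoeff r (n + 1) =
          (r (n + 1) - ∑ i : Fin n, sqrtCoeff r (i.1 + 1) * sqrtCoeff r (n - i.1)) / 2 := by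
        rw [sqrtCoeff]
      rw [Fin.sum_univ_eq_sum_range
        (fun i => sqrtCoeff r (i + 1) * sqrtCoeff r (n - i)) n] at h1
      rw [h0, h1]
      have : r (n + 1) = f.reverse.coeff (n + 1) := rfl
      rw [this]
      field_simp
      ring
  · rw [← PowerSeries.coeff_zero_eq_constantCoeff_apply, PowerSeries.coeff_mk, sqrtCoeff]

/-- The square root of `X^n f(1/X)` with constant coefficient one. -/
noncomputable def Tser : PowerSeries k := (exists_sqrt f).choose

lemma Tser_sq : Tser f ^ 2 = (f.reverse : PowerSeries k) := (exists_sqrt f).choose_spec.1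

lemma Tser_const : PowerSeries.constantCoeff (Tser f) = 1 := (exists_sqrt f).choose_spec.2

end Pool.Agent.HypJac
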