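import Mathlib
import Pool.Agent.HypJac.Sqrt

/-!
# The expansion at infinity `H f A → A((τ))`, `x = τ⁻²`, `y = τ^{-n} T(τ²)`, and the residues

PROOF SKETCH.
* `evL A p = ∑ p_i τ^{-2i}`: coefficient at `m` is `p_i` if `m = -2i`, else `0` (prove this first:
  `(evL A p).coeff (-2*i) = p.coeff i`, zero at odd or positive exponents).
* `yL_mul_yL`: `SL² = ofPowerSeries (expand 2 (f.reverse))` mapped to `A`, and `τ^{-2n} f.reverse(τ²) = f(τ^{-2})`:
  compare coefficients, `Polynomial.coeff_reverse` / `revAt`.
* `lam_injective`: `evL a + evL b * yL = 0`. Even and odd exponents: `SL` has only even exponents, `n` is odd, so `evL a` lives in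
  even and `evL b * yL` in odd exponents; hence both vanish; `SL` has constant coefficient `1` so it is not a zero divisor
  (compare the lowest coefficient); `evL` is injective.
* `mapL_lam`, `res_map`: `mapL` commutes with `evL`, `SL`, `WL` (compare coefficients; `φ` is a `k`-algebra map).
* `res_lam` (`j < g`): `res (evL a)`: `evL a * WL` has only even exponents, so coefficient at `-1` is `0`.
  `res (evL b * yL)`: `yL * WL j = τ^{-n} τ^{2(g-1-j)} = τ^{-3-2j}` exactly (`SL * SL⁻¹ = 1`), so all exponents of
  `evL b * τ^{-3-2j}` are `≤ -3`.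
* `res_ofPowerSeries`: a product of two power series has no coefficient at `-1`.
* `eq_C_of_lam_eq`: exponents: `evL a.re` has only even exponents `≤ 0`; `evL a.im * yL` only odd exponents, and if
  `a.im ≠ 0` the lowest one is `-2 deg - n < 0` with coefficient the leading coefficient of `a.im`. So `a.im = 0`, and
  then `a.re` has degree `0`.
* `eq_zero_of_res`: suppose `s ≠ 0`, `e = deg u - deg s`, `1 ≤ e ≤ g`, take `j = e - 1 < g`. In the field of Laurent series
  `c = (s/u) (y + v)`, `s/u = τ^{2e} (lc s + higher even...)`, `(s/u) y W_j = τ^{2e} τ^{-1-2e} (lc s + ...)` has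
  coefficient `lc s ≠ 0` at `-1`, and `(s/u) v W_j` has only even exponents (the same parity remark as in `res_lam`; the
  inverse of the even series `evL u` is even), so it contributes `0` at `-1`. Contradiction.
  (Useful: write `evL u = τ^{-2 deg u} * (power series with constant coefficient 1)` for monic `u`.)
* `res_point`: `c = s (y + η) / (x - ξ)`, `1/(x - ξ) = τ² (1 + ξ τ² + ...)`, `y W_0 = τ^{-3}`: coefficient `s`; the rest
  is a power series times `τ²`.
-/

namespace Pool.Agent.HypJac

open Polynomial

section mapL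

variable {A B C : Type*} [CommRing A] [CommRing B] [CommRing C]

/-- Laurent series are functorial in the coefficients. -/
noncomputable def mapL (φ : A →+* B) : LaurentSeries A →+* LaurentSeries B where
  toFun x := HahnSeries.map x φ
  map_one' := by ext i; by_cases h : i = 0 <;> simp [HahnSeries.coeff_one, h]
  map_zero' := by ext i; simp
  map_mul' x y := HahnSeries.map_mul (φ : A →ₙ+* B)
  map_add' x y := by ext i; simp

@[simp] lemma mapL_coeff (φ : A →+* B) (x : LaurentSeries A) (i : ℤ) :
    (mapL φ x).coeff i = φ (x.coeff i) := rfl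

lemma mapL_injective {φ : A →+* B} (hφ : Function.Injective φ) :
    Function.Injective (mapL φ) := by
  intro x y h
  ext i
  apply hφ
  have := congrArg (fun z => HahnSeries.coeff z i) h
  simpa using this

/-- A polynomial in `x = τ⁻²`. -/
noncomputable def evL (A : Type*) [CommRing A] : A[X] →+* LaurentSeries A :=
  Polynomial.eval₂RingHom (HahnSeries.C : A →+* LaurentSeries A) (HahnSeries.single (-2) 1)

end mapL

section toolkit

variable {A B : Type*} [CommRing A] [CommRing B]

lemma ops_coeff_neg (p : PowerSeries A) {i : ℤ} (hi : i < 0) :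
    (HahnSeries.ofPowerSeries ℤ A p).coeff i = 0 := by
  have := PowerSeries.coeff_coe (f := p) i
  rw [if_pos hi] at this
  exact this

lemma ops_coeff_zero (p : PowerSeries A) :
    (HahnSeries.ofPowerSeries ℤ A p).coeff 0 = PowerSeries.constantCoeff p := by
  have := HahnSeries.ofPowerSeries_apply_coeff (Γ := ℤ) p 0
  simpa using this

lemma lam_single_congr {a b : ℤ} (h : a = b) (r : A) :
    (HahnSeries.single a r : LaurentSeries A) = HahnSeries.single b r := by rw [h]

lemma single_mul_coeff (a : ℤ) (r : A) (x : LaurentSeries A) (i : ℤ) :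
    (HahnSeries.single a r * x).coeff i = r * x.coeff (i - a) :=
  HahnSeries.coeff_single_mul

/-- Only even exponents. -/
def EvenS (c : LaurentSeries A) : Prop := ∀ i : ℤ, Odd i → c.coeff i = 0

/-- Only odd exponents. -/
def OddS (c : LaurentSeries A) : Prop := ∀ i : ℤ, Even i → c.coeff i = 0

lemma EvenS.mul {c d : LaurentSeries A} (hc : EvenS c) (hd : EvenS d) : EvenS (c * d) := by
  intro i hi
  rw [HahnSeries.coeff_mul]
  refine Finset.sum_eq_zero fun q hq => ?_
  have hq' : q.1 + q.2 = i := (Finset.mem_antidiagonal.1 hq).2.2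
  rcases Int.even_or_odd q.1 with h1 | h1
  · have h2 : Odd q.2 := by
      rw [← hq'] at hi
      exact (Int.odd_add'.1 hi).2 h1
    rw [hd _ h2, mul_zero]
  · rw [hc _ h1, zero_mul]

lemma EvenS.mul_odd {c d : LaurentSeries A} (hc : EvenS c) (hd : OddS d) : OddS (c * d) := by
  intro i hi
  rw [HahnSeries.coeff_mul]
  refine Finset.sum_eq_zero fun q hq => ?_
  have hq' : q.1 + q.2 = i := (Finset.mem_antidiagonal.1 hq).2.2
  rcases Int.even_or_odd q.1 with h1 | h1
  · have h2 : Even q.2 := by
      rw [← hq'] at hi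
      exact (Int.even_add.1 hi).1 h1
    rw [hd _ h2, mul_zero]
  · rw [hc _ h1, zero_mul]

lemma evenS_single {a : ℤ} (ha : Even a) (r : A) :
    EvenS (HahnSeries.single a r : LaurentSeries A) := by
  intro i hi
  rw [HahnSeries.coeff_single_of_ne]
  rintro rfl
  exact (Int.not_even_iff_odd.2 hi) ha

lemma oddS_single {a : ℤ} (ha : Odd a) (r : A) :
    OddS (HahnSeries.single a r : LaurentSeries A) := by
  intro i hi
  rw [HahnSeries.coeff_single_of_ne]
  rintro rfl
  exact (Int.not_even_iff_odd.2 ha) hi

lemma evenS_ops {p : PowerSeries A} (hp : ∀ m : ℕ, Odd m → PowerSeries.coeff m p = 0) :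
    EvenS (HahnSeries.ofPowerSeries ℤ A p) := by
  intro i hi
  rcases lt_or_ge i 0 with h | h
  · exact ops_coeff_neg p h
  · obtain ⟨m, rfl⟩ := Int.eq_ofNat_of_zero_le h
    rw [HahnSeries.ofPowerSeries_apply_coeff]
    exact hp m (by exact_mod_cast hi)

lemma evenS_expand (p : PowerSeries A) :
    EvenS (HahnSeries.ofPowerSeries ℤ A (PowerSeries.expand 2 two_ne_zero p)) := by
  refine evenS_ops fun m hm => PowerSeries.coeff_expand_of_not_dvd _ _ _ ?_
  intro h
  exact (Nat.not_even_iff_odd.2 hm) (even_iff_two_dvd.2 h)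

lemma eq_zero_of_even_odd {c d : LaurentSeries A} (hc : EvenS c) (hd : OddS d)
    (h : c + d = 0) : c = 0 ∧ d = 0 := by
  have key : ∀ i, c.coeff i = 0 := by
    intro i
    rcases Int.even_or_odd i with h1 | h1
    · have := congrArg (fun z => HahnSeries.coeff z i) h
      simpa [hd i h1] using this
    · exact hc i h1
  have hc0 : c = 0 := by
    ext i
    simpa using key i
  refine ⟨hc0, ?_⟩
  rw [hc0, zero_add] at h
  exact h

lemma evL_C_mul_X_pow (r : A) (e : ℕ) :
    evL A (C r * X ^ e) = HahnSeries.single (-2 * (e : ℤ)) r := by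
  simp only [evL, coe_eval₂RingHom, eval₂_mul, eval₂_C, eval₂_X_pow]
  rw [HahnSeries.single_pow, HahnSeries.C_apply, HahnSeries.single_mul_single]
  simp [mul_comm]

lemma evL_reflect (N : ℕ) (p : A[X]) (hp : p.natDegree ≤ N) :
    evL A p = HahnSeries.single (-2 * (N : ℤ)) 1 * HahnSeries.ofPowerSeries ℤ A
      (PowerSeries.expand 2 two_ne_zero ((p.reflect N : A[X]) : PowerSeries A)) := by
  refine Polynomial.induction_with_natDegree_le (fun p => evL A p =
    HahnSeries.single (-2 * (N : ℤ)) 1 * HahnSeries.ofPowerSeries ℤ A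
      (PowerSeries.expand 2 two_ne_zero ((p.reflect N : A[X]) : PowerSeries A))) N ?_ ?_ ?_ p hp
  · simp
  · intro e r _ he
    rw [evL_C_mul_X_pow, reflect_C_mul_X_pow, revAt_le he]
    simp only [Polynomial.coe_mul, Polynomial.coe_C, Polynomial.coe_pow, Polynomial.coe_X,
      map_mul, map_pow, PowerSeries.expand_C, PowerSeries.expand_X, HahnSeries.ofPowerSeries_C,
      HahnSeries.ofPowerSeries_X]
    rw [HahnSeries.single_pow, HahnSeries.single_pow, HahnSeries.C_apply,
      HahnSeries.single_mul_single, HahnSeries.single_mul_single]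
    simp only [one_pow, one_mul, mul_one, nsmul_eq_mul, zero_add]
    refine lam_single_congr ?_ _
    push_cast [Nat.cast_sub he]
    ring
  · intro a b _ _ ha hb
    rw [map_add, ha, hb, reflect_add, Polynomial.coe_add, map_add, map_add, mul_add]

lemma evL_even (p : A[X]) : EvenS (evL A p) := by
  rw [evL_reflect p.natDegree p le_rfl]
  refine (evenS_single ⟨-(p.natDegree : ℤ), by ring⟩ 1).mul (evenS_expand _)

lemma evL_coeff_neg (p : A[X]) (i : ℕ) : (evL A p).coeff (-2 * (i : ℤ)) = p.coeff i := by
  induction p using Polynomial.induction_on' with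
  | add a b ha hb => simp only [map_add, HahnSeries.coeff_add, ha, hb, Polynomial.coeff_add]
  | monomial e r =>
    rw [← C_mul_X_pow_eq_monomial, evL_C_mul_X_pow, coeff_C_mul_X_pow]
    by_cases h : i = e
    · subst h
      simp
    · rw [if_neg h, HahnSeries.coeff_single_of_ne]
      omega

lemma evL_coeff_pos (p : A[X]) {i : ℤ} (hi : 0 < i) : (evL A p).coeff i = 0 := by
  induction p using Polynomial.induction_on' with
  | add a b ha hb => simp only [map_add, HahnSeries.coeff_add, ha, hb, add_zero]
  | monomial e r =>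
    rw [← C_mul_X_pow_eq_monomial, evL_C_mul_X_pow, HahnSeries.coeff_single_of_ne]
    omega

lemma evL_injective : Function.Injective (evL A) := by
  intro p q h
  ext i
  rw [← evL_coeff_neg p i, ← evL_coeff_neg q i, h]

lemma mapL_single (φ : A →+* B) (a : ℤ) (r : A) :
    mapL φ (HahnSeries.single a r) = HahnSeries.single a (φ r) := by
  ext i
  rw [mapL_coeff]
  by_cases h : i = a
  · subst h
    simp
  · rw [HahnSeries.coeff_single_of_ne h, HahnSeries.coeff_single_of_ne h, map_zero]

lemma mapL_ops (φ : A →+* B) (p : PowerSeries A) :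
    mapL φ (HahnSeries.ofPowerSeries ℤ A p) =
      HahnSeries.ofPowerSeries ℤ B (PowerSeries.map φ p) := by
  ext i
  rw [mapL_coeff]
  rcases lt_or_ge i 0 with h | h
  · rw [ops_coeff_neg p h, ops_coeff_neg _ h, map_zero]
  · obtain ⟨m, rfl⟩ := Int.eq_ofNat_of_zero_le h
    rw [HahnSeries.ofPowerSeries_apply_coeff, HahnSeries.ofPowerSeries_apply_coeff,
      PowerSeries.coeff_map]

lemma mapL_evL (φ : A →+* B) (p : A[X]) : mapL φ (evL A p) = evL B (p.map φ) := by
  induction p using Polynomial.induction_on' with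
  | add a b ha hb => simp only [map_add, ha, hb, Polynomial.map_add]
  | monomial e r =>
    rw [← C_mul_X_pow_eq_monomial, evL_C_mul_X_pow, mapL_single, Polynomial.map_mul,
      Polynomial.map_C, Polynomial.map_pow, Polynomial.map_X, evL_C_mul_X_pow]

end toolkit

variable {k : Type*} [Field k] (f : k[X]) [HypPoly f]

/-- The series `T(τ²)`. -/
noncomputable def SL (A : Type*) [CommRing A] [Algebra k A] : LaurentSeries A :=
  HahnSeries.ofPowerSeries ℤ A
    (PowerSeries.map (algebraMap k A) (PowerSeries.expand 2 two_ne_zero (Tser f)))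

/-- The expansion of `y`. -/
noncomputable def yL (A : Type*) [CommRing A] [Algebra k A] : LaurentSeries A :=
  HahnSeries.single (-(f.natDegree : ℤ)) 1 * SL f A

/-- The weight `W_j = τ^{2(g-1-j)} T(τ²)⁻¹`, the expansion of `x^j dx / y` up to a sign. -/
noncomputable def WL (A : Type*) [CommRing A] [Algebra k A] (j : ℕ) : LaurentSeries A :=
  HahnSeries.ofPowerSeries ℤ A (PowerSeries.map (algebraMap k A)
    (PowerSeries.X ^ (2 * (gen f - 1 - j)) * PowerSeries.expand 2 two_ne_zero (Tser f)⁻¹))

/-- The residue of `c x^j dx / y` at infinity. -/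
noncomputable def res (A : Type*) [CommRing A] [Algebra k A] (j : ℕ) (c : LaurentSeries A) : A :=
  (c * WL f A j).coeff (-1)

section

variable {f} {A B : Type*} [CommRing A] [Algebra k A] [CommRing B] [Algebra k B]

lemma yL_mul_yL : yL f A * yL f A = evL A (fA f A) := by
  rw [evL_reflect f.natDegree (fA f A) natDegree_map_le]
  have h1 : SL f A * SL f A = HahnSeries.ofPowerSeries ℤ A
      (PowerSeries.expand 2 two_ne_zero
        (((fA f A).reflect f.natDegree : A[X]) : PowerSeries A)) := by
    unfold SL
    rw [← map_mul, ← map_mul, ← map_mul, ← pow_two, Tser_sq, PowerSeries.map_expand]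
    congr 2
    rw [reflect_map]
    ext i
    simp [Polynomial.reverse]
  unfold yL
  rw [← h1]
  have h2 : (HahnSeries.single (-2 * (f.natDegree : ℤ)) (1 : A) : LaurentSeries A) =
      HahnSeries.single (-(f.natDegree : ℤ)) 1 * HahnSeries.single (-(f.natDegree : ℤ)) 1 := by
    rw [HahnSeries.single_mul_single, mul_one]
    exact lam_single_congr (by ring) _
  rw [h2]
  ring

lemma SL_even : EvenS (SL f A) := by
  unfold SL
  rw [PowerSeries.map_expand]
  exact evenS_expand _

lemma yL_odd : OddS (yL f A) := by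
  unfold yL
  rw [mul_comm]
  refine SL_even.mul_odd (oddS_single ?_ 1)
  have h : Odd (f.natDegree : ℤ) := by exact_mod_cast HypPoly.odd (f := f)
  exact h.neg

lemma WL_even (j : ℕ) : EvenS (WL f A j) := by
  unfold WL
  rw [map_mul, map_mul, map_pow, PowerSeries.map_X, PowerSeries.map_expand, map_pow,
    HahnSeries.ofPowerSeries_X, HahnSeries.single_pow]
  refine (evenS_single ?_ _).mul (evenS_expand _)
  exact ⟨((gen f - 1 - j : ℕ) : ℤ), by
    rw [nsmul_eq_mul, mul_one, Nat.cast_mul, Nat.cast_ofNat]; ring⟩

/-- `y W_j = τ^{-3-2j}` -/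
lemma yL_mul_WL {j : ℕ} (hj : j < gen f) :
    yL f A * WL f A j = HahnSeries.single (-3 - 2 * (j : ℤ)) 1 := by
  have hT : PowerSeries.expand 2 two_ne_zero (Tser f) *
      PowerSeries.expand 2 two_ne_zero (Tser f)⁻¹ = (1 : PowerSeries k) := by
    rw [← map_mul, PowerSeries.mul_inv_cancel _ (by rw [Tser_const]; exact one_ne_zero), map_one]
  have h1 : SL f A * WL f A j = HahnSeries.single ((2 * (gen f - 1 - j) : ℕ) : ℤ) 1 := by
    unfold SL WL
    rw [← map_mul, ← map_mul]
    have h2 : PowerSeries.expand 2 two_ne_zero (Tser f) *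
        (PowerSeries.X ^ (2 * (gen f - 1 - j)) * PowerSeries.expand 2 two_ne_zero (Tser f)⁻¹) =
        (PowerSeries.X : PowerSeries k) ^ (2 * (gen f - 1 - j)) := by
      rw [mul_left_comm, hT, mul_one]
    rw [h2, map_pow, PowerSeries.map_X, HahnSeries.ofPowerSeries_X_pow]
  have hn := natDegree_eq f
  unfold yL
  rw [mul_assoc, h1, HahnSeries.single_mul_single, mul_one]
  exact lam_single_congr (by omega) _

variable (f A) in
/-- The expansion at infinity. -/
noncomputable def lam : H f A →+* LaurentSeries A where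
  toFun a := evL A a.re + evL A a.im * yL f A
  map_one' := by simp [QuadraticAlgebra.re_one, QuadraticAlgebra.im_one]
  map_zero' := by simp
  map_add' a b := by simp; ring
  map_mul' a b := by
    have h := yL_mul_yL (f := f) (A := A)
    simp only [QuadraticAlgebra.re_mul, QuadraticAlgebra.im_mul, map_add, map_mul, zero_mul,
      add_zero]
    rw [← h]
    ring

lemma lam_apply (a : H f A) : lam f A a = evL A a.re + evL A a.im * yL f A := rfl

lemma lam_cH (a : A[X]) : lam f A (cH f A a) = evL A a := by
  simp [lam_apply]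

lemma lam_yH : lam f A (yH f A) = yL f A := by
  simp [lam_apply, yH]

lemma lam_injective [IsDomain A] : Function.Injective (lam f A) := by
  rw [injective_iff_map_eq_zero]
  intro a ha
  rw [lam_apply] at ha
  obtain ⟨h1, h2⟩ := eq_zero_of_even_odd (evL_even a.re) ((evL_even a.im).mul_odd yL_odd) ha
  have h3 : a.re = 0 := evL_injective (by rw [h1, map_zero])
  have h4 : a.im * fA f A = 0 := by
    apply evL_injective
    rw [map_mul, ← yL_mul_yL, ← mul_assoc, h2, zero_mul, map_zero]
  have h5 : (fA f A).Monic := (HypPoly.monic (f := f)).map _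
  have h6 : a.im = 0 := by
    rcases mul_eq_zero.1 h4 with h | h
    · exact h
    · exact absurd h h5.ne_zero
  ext1
  · exact h3
  · exact h6

lemma lam_map_map (φ : A →ₐ[k] B) (x : PowerSeries k) :
    PowerSeries.map (φ : A →+* B) (PowerSeries.map (algebraMap k A) x) =
      PowerSeries.map (algebraMap k B) x := by
  ext i
  simp

lemma mapL_SL (φ : A →ₐ[k] B) : mapL (φ : A →+* B) (SL f A) = SL f B := by
  unfold SL
  rw [mapL_ops, lam_map_map]

lemma mapL_yL (φ : A →ₐ[k] B) : mapL (φ : A →+* B) (yL f A) = yL f B := by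
  unfold yL
  rw [map_mul, mapL_single, mapL_SL, map_one]

lemma mapL_WL (φ : A →ₐ[k] B) (j : ℕ) : mapL (φ : A →+* B) (WL f A j) = WL f B j := by
  unfold WL
  rw [mapL_ops, lam_map_map]

lemma mapL_lam (φ : A →ₐ[k] B) (a : H f A) :
    mapL (φ : A →+* B) (lam f A a) = lam f B (mapH f φ a) := by
  rw [lam_apply, lam_apply, map_add, map_mul, mapL_evL, mapL_evL, mapL_yL, mapH_re, mapH_im]

lemma res_add (j : ℕ) (c c' : LaurentSeries A) : res f A j (c + c') = res f A j c + res f A j c' := by
  simp [res, add_mul]

lemma res_sub (j : ℕ) (c c' : LaurentSeries A) : res f A j (c - c') = res f A j c - res f A j c' := by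
  simp [res, sub_mul]

lemma res_map (φ : A →ₐ[k] B) (j : ℕ) (c : LaurentSeries A) :
    res f B j (mapL (φ : A →+* B) c) = φ (res f A j c) := by
  unfold res
  rw [← mapL_WL φ j, ← map_mul, mapL_coeff]
  rfl

/-- The residue vanishes on the coordinate ring. -/
lemma res_lam {j : ℕ} (hj : j < gen f) (a : H f A) : res f A j (lam f A a) = 0 := by
  unfold res
  rw [lam_apply, add_mul, HahnSeries.coeff_add, ((evL_even a.re).mul (WL_even j)) (-1) (by decide),
    zero_add, mul_assoc, yL_mul_WL hj, mul_comm, single_mul_coeff, evL_coeff_pos, mul_zero]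
  omega

/-- The residue vanishes on power series. -/
lemma res_ofPowerSeries (j : ℕ) (p : PowerSeries A) :
    res f A j (HahnSeries.ofPowerSeries ℤ A p) = 0 := by
  unfold res WL
  rw [← map_mul]
  exact ops_coeff_neg _ (by norm_num)

/-- Elements of the coordinate ring that are regular at infinity are constants. -/
lemma eq_C_of_lam_eq [IsDomain A] {a : H f A} {p : PowerSeries A}
    (h : lam f A a = HahnSeries.ofPowerSeries ℤ A p) : ∃ e : A, a = cH f A (C e) ∧
      PowerSeries.constantCoeff p = e := by
  rw [lam_apply] at h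
  have him : a.im = 0 := by
    by_contra hne
    have h1 := congrArg (fun z => HahnSeries.coeff z
      (-2 * (a.im.natDegree : ℤ) - (f.natDegree : ℤ))) h
    have hodd := HypPoly.odd (f := f)
    have h3 := HypPoly.three (f := f)
    have hodd' : Odd (-2 * (a.im.natDegree : ℤ) - (f.natDegree : ℤ)) := by
      obtain ⟨m, hm⟩ := hodd
      refine ⟨-(a.im.natDegree : ℤ) - m - 1, ?_⟩
      push_cast [hm]
      ring
    simp only [HahnSeries.coeff_add] at h1
    rw [evL_even a.re _ hodd', ops_coeff_neg p (by omega), zero_add,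
      evL_reflect a.im.natDegree a.im le_rfl] at h1
    unfold yL SL at h1
    rw [show ∀ x y z w : LaurentSeries A, x * y * (z * w) = x * z * (y * w) from
      fun x y z w => by ring, HahnSeries.single_mul_single, ← map_mul, single_mul_coeff,
      show -2 * (a.im.natDegree : ℤ) - (f.natDegree : ℤ) -
        (-2 * (a.im.natDegree : ℤ) + -(f.natDegree : ℤ)) = 0 by ring, ops_coeff_zero,
      map_mul, PowerSeries.constantCoeff_expand, PowerSeries.map_expand,
      PowerSeries.constantCoeff_expand] at h1
    have h4 : PowerSeries.constantCoeff (PowerSeries.map (algebraMap k A) (Tser f)) = 1 := by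
      rw [← PowerSeries.coeff_zero_eq_constantCoeff_apply, PowerSeries.coeff_map,
        PowerSeries.coeff_zero_eq_constantCoeff_apply, Tser_const, map_one]
    have h5 : PowerSeries.constantCoeff
        ((a.im.reflect a.im.natDegree : A[X]) : PowerSeries A) = a.im.leadingCoeff := by
      rw [Polynomial.constantCoeff_coe, Polynomial.coeff_reflect, revAt_zero]
      rfl
    rw [h4, h5] at h1
    simp only [mul_one, one_mul] at h1
    exact hne (leadingCoeff_eq_zero.1 h1)
  rw [him, map_zero, zero_mul, add_zero] at h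
  have hco : ∀ i : ℕ, 0 < i → a.re.coeff i = 0 := by
    intro i hi
    rw [← evL_coeff_neg a.re i, h]
    exact ops_coeff_neg p (by omega)
  refine ⟨a.re.coeff 0, ?_, ?_⟩
  · ext1
    · rw [cH_re]
      ext i
      rw [coeff_C]
      split_ifs with hi
      · rw [hi]
      · exact hco i (Nat.pos_of_ne_zero hi)
    · rw [cH_im, him]
  · rw [← ops_coeff_zero, ← h, ← evL_coeff_neg a.re 0]
    simp

end

section field

variable {f} {E : Type*} [Field E] [Algebra k E]

/-- Inverse of the expansion of a monic polynomial. -/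
lemma evL_inv {u : E[X]} (hu : u.Monic) : ∃ q : PowerSeries E, PowerSeries.constantCoeff q = 1 ∧
    evL E u * (HahnSeries.single (2 * (u.natDegree : ℤ)) 1 * HahnSeries.ofPowerSeries ℤ E
      (PowerSeries.expand 2 two_ne_zero q)) = 1 := by
  set r : PowerSeries E := ((u.reflect u.natDegree : E[X]) : PowerSeries E) with hr
  have hr0 : PowerSeries.constantCoeff r = 1 := by
    rw [hr, Polynomial.constantCoeff_coe, Polynomial.coeff_reflect, revAt_zero]
    exact hu
  refine ⟨r⁻¹, ?_, ?_⟩
  · rw [PowerSeries.constantCoeff_inv, hr0, inv_one]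
  · have h1 := PowerSeries.mul_inv_cancel r (by rw [hr0]; exact one_ne_zero)
    rw [evL_reflect u.natDegree u le_rfl, ← hr,
      show ∀ x y z w : LaurentSeries E, x * y * (z * w) = x * z * (y * w) from
        fun x y z w => by ring, HahnSeries.single_mul_single, ← map_mul, ← map_mul, h1, map_one,
      map_one, mul_one, mul_one]
    simp

/-- The residue of `s (y + v) / u`. -/
lemma res_core {u v s : E[X]} {q : PowerSeries E} {j : ℕ} (hj : j < gen f)
    (hq : evL E u * (HahnSeries.single (2 * (u.natDegree : ℤ)) 1 * HahnSeries.ofPowerSeries ℤ E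
      (PowerSeries.expand 2 two_ne_zero q)) = 1) {c : LaurentSeries E}
    (hc : c * evL E u = evL E s * (yL f E + evL E v)) :
    res f E j c = (HahnSeries.single
      (-3 - 2 * (j : ℤ) + 2 * (u.natDegree : ℤ) - 2 * (s.natDegree : ℤ)) 1 *
      HahnSeries.ofPowerSeries ℤ E (PowerSeries.expand 2 two_ne_zero
        (((s.reflect s.natDegree : E[X]) : PowerSeries E) * q))).coeff (-1) := by
  set V : LaurentSeries E := HahnSeries.single (2 * (u.natDegree : ℤ)) 1 *
    HahnSeries.ofPowerSeries ℤ E (PowerSeries.expand 2 two_ne_zero q) with hV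
  have hVe : EvenS V := (evenS_single ⟨(u.natDegree : ℤ), by ring⟩ 1).mul (evenS_expand _)
  have h1 : c = evL E s * (yL f E + evL E v) * V := by
    rw [← hc, mul_assoc, hq, mul_one]
  have h2 : c * WL f E j = evL E s * HahnSeries.single (-3 - 2 * (j : ℤ)) 1 * V +
      evL E s * evL E v * V * WL f E j := by
    rw [h1, ← yL_mul_WL hj]
    ring
  have h3 : (evL E s * evL E v * V * WL f E j).coeff (-1) = 0 :=
    ((((evL_even s).mul (evL_even v)).mul hVe).mul (WL_even j)) (-1) (by decide)
  unfold res
  rw [h2, HahnSeries.coeff_add, h3, add_zero]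
  congr 1
  rw [hV, evL_reflect s.natDegree s le_rfl, map_mul, map_mul,
    show ∀ x y z w t : LaurentSeries E, x * y * z * (w * t) = (x * z * w) * (y * t) from
      fun x y z w t => by ring, HahnSeries.single_mul_single, HahnSeries.single_mul_single]
  rw [lam_single_congr (b := -3 - 2 * (j : ℤ) + 2 * (u.natDegree : ℤ) - 2 * (s.natDegree : ℤ))
    (by ring)]
  simp

/-- The residues determine `s` in `c = s (y + v) / u` when `deg u ≤ g`. -/
lemma eq_zero_of_res {u v s : E[X]} (hu : u.Monic) (hug : u.natDegree ≤ gen f)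
    (hs : s.degree < u.degree) (hv : v.degree < u.degree) {c : LaurentSeries E}
    (hc : c * evL E u = evL E s * (yL f E + evL E v)) (h : ∀ j < gen f, res f E j c = 0) :
    s = 0 := by
  by_contra hne
  obtain ⟨q, hq0, hq⟩ := evL_inv hu
  have hlt : s.natDegree < u.natDegree := natDegree_lt_natDegree hne hs
  have hj : u.natDegree - s.natDegree - 1 < gen f := by omega
  have h1 := h _ hj
  rw [res_core hj hq hc, single_mul_coeff] at h1
  have h2 : -1 - (-3 - 2 * ((u.natDegree - s.natDegree - 1 : ℕ) : ℤ) + 2 * (u.natDegree : ℤ) -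
      2 * (s.natDegree : ℤ)) = 0 := by
    omega
  rw [h2, ops_coeff_zero, PowerSeries.constantCoeff_expand, map_mul, hq0, mul_one, one_mul,
    Polynomial.constantCoeff_coe, Polynomial.coeff_reflect, revAt_zero] at h1
  exact hne (leadingCoeff_eq_zero.1 h1)

/-- The residue for a point: `c = s (y + η) / (x - ξ)`. -/
lemma res_point {ξ η s : E} {c : LaurentSeries E}
    (hc : c * evL E (X - C ξ) = evL E (C s) * (yL f E + evL E (C η))) :
    res f E 0 c = s := by
  obtain ⟨q, hq0, hq⟩ := evL_inv (monic_X_sub_C ξ)
  rw [res_core (gen_pos f) hq hc, single_mul_coeff, natDegree_X_sub_C,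
    natDegree_C]
  have h2 : -1 - (-3 - 2 * ((0 : ℕ) : ℤ) + 2 * ((1 : ℕ) : ℤ) - 2 * ((0 : ℕ) : ℤ)) = 0 := by
    norm_num
  rw [h2, ops_coeff_zero, PowerSeries.constantCoeff_expand, map_mul, hq0, mul_one, one_mul,
    Polynomial.constantCoeff_coe]
  simp

end field

end Pool.Agent.HypJac
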