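import Mathlib
import Pool.Agent.HypJac.Ded
import Pool.Agent.HypJac.Lam

/-!
# Derivations on polynomials, coordinate rings, Laurent series and fraction fields

PROOF SKETCH. All coefficientwise. `dP_mul`: `Polynomial.coeff_mul` and Leibniz; `dP_map`: a derivation over `k` kills
`algebraMap k A` (`Derivation.map_algebraMap`). `degree_dP_lt`: leading coefficient `1` is killed. `dL_mul`:
`HahnSeries.coeff_mul`, enlarge the index sets with `HahnSeries.coeff_mul_left'`, `coeff_mul_right'`
(`support (dL d x) ⊆ support x`). `exists_derivation_laurent`: package `dL` (linearity over `k`: `d (c a) = c d a`).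
`dH`: Leibniz holds because `dP d (fA f A) = 0`. `delta`: `(a + b y) ↦ 2 a' y + (2 f b' + f' b)`; Leibniz is a `ring`
identity after `derivative_mul` (uses `y² = f`). `lam_dH`: `dL` kills `single n 1` and `SL` (coefficients in `k`), so
`dL (evL p) = evL (dP p)`. `exists_derivation_frac`: quotient rule; slick way: the ring homomorphism
`R → K[ε]`, `r ↦ r + d r ε` (`TrivSqZeroExt`/`DualNumber`) sends nonzero elements to units, lift it to `K` with
`IsLocalization.lift`, take the second component. (You may add auxiliary lemmas.)
-/

namespace Pool.Agent.HypJac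

open Polynomial

section poly

variable {k : Type*} [CommRing k] {A B : Type*} [CommRing A] [Algebra k A] [CommRing B]
  [Algebra k B]

/-- The coefficientwise extension of a derivation to polynomials. -/
noncomputable def dP (d : Derivation k A A) : A[X] →+ A[X] where
  toFun p := p.sum fun n a => monomial n (d a)
  map_zero' := by simp
  map_add' p q := by
    rw [Polynomial.sum_add_index]
    · simp
    · intro i a b; simp

@[simp] lemma dP_coeff (d : Derivation k A A) (p : A[X]) (n : ℕ) :
    (dP d p).coeff n = d (p.coeff n) := by
  change (p.sum fun n a => monomial n (d a)).coeff n = _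
  rw [Polynomial.sum_def, finsetSum_coeff]
  simp only [coeff_monomial]
  rw [Finset.sum_ite_eq']
  split_ifs with h
  · rfl
  · rw [notMem_support_iff.1 h, map_zero]

lemma dP_mul (d : Derivation k A A) (p q : A[X]) : dP d (p * q) = dP d p * q + p * dP d q := by
  ext n
  rw [dP_coeff, coeff_add, coeff_mul, coeff_mul, coeff_mul, map_sum, ← Finset.sum_add_distrib]
  refine Finset.sum_congr rfl fun x _ => ?_
  rw [dP_coeff, dP_coeff, Derivation.leibniz, smul_eq_mul, smul_eq_mul]
  ring

@[simp] lemma dP_C (d : Derivation k A A) (a : A) : dP d (C a) = C (d a) := by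
  ext n
  rw [dP_coeff, coeff_C, coeff_C]
  split_ifs with h
  · rfl
  · exact map_zero d

@[simp] lemma dP_X (d : Derivation k A A) : dP d (X : A[X]) = 0 := by
  ext n
  rw [dP_coeff, coeff_X, coeff_zero]
  split_ifs with h
  · exact d.map_one_eq_zero
  · exact map_zero d

lemma dP_map (d : Derivation k A A) (p : k[X]) : dP d (p.map (algebraMap k A)) = 0 := by
  ext n
  rw [dP_coeff, coeff_map, coeff_zero]
  exact d.map_algebraMap _

lemma degree_dP_le (d : Derivation k A A) (p : A[X]) : (dP d p).degree ≤ p.degree := by
  rw [degree_le_iff_coeff_zero]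
  intro m hm
  rw [dP_coeff, coeff_eq_zero_of_degree_lt hm, map_zero]

lemma degree_dP_lt [Nontrivial A] (d : Derivation k A A) {p : A[X]} (hp : p.Monic) :
    (dP d p).degree < p.degree := by
  rw [degree_eq_natDegree hp.ne_zero, degree_lt_iff_coeff_zero]
  intro m hm
  rw [dP_coeff]
  rcases hm.eq_or_lt with h | h
  · rw [← h, hp.coeff_natDegree]
    exact d.map_one_eq_zero
  · rw [coeff_eq_zero_of_natDegree_lt h, map_zero]

lemma dP_comp {dA : Derivation k A A} {dB : Derivation k B B} {φ : A →ₐ[k] B}
    (h : ∀ a, dB (φ a) = φ (dA a)) (p : A[X]) :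
    dP dB (p.map (φ : A →+* B)) = (dP dA p).map (φ : A →+* B) := by
  ext n
  rw [dP_coeff, coeff_map, coeff_map, dP_coeff]
  exact h _

end poly

section laurent

variable {k : Type*} [CommRing k] {A B : Type*} [CommRing A] [Algebra k A] [CommRing B]
  [Algebra k B]

/-- The coefficientwise extension of a derivation to Laurent series. -/
noncomputable def dL (d : Derivation k A A) : LaurentSeries A →+ LaurentSeries A where
  toFun x := HahnSeries.map x (d : A →+ A)
  map_zero' := by ext i; simp
  map_add' x y := by ext i; simp

@[simp] lemma dL_coeff (d : Derivation k A A) (x : LaurentSeries A) (i : ℤ) :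
    (dL d x).coeff i = d (x.coeff i) := rfl

lemma dL_mul (d : Derivation k A A) (x y : LaurentSeries A) :
    dL d (x * y) = dL d x * y + x * dL d y := by
  ext i
  have hx : (dL d x).support ⊆ x.support := by
    intro j hj hj'
    apply hj
    rw [dL_coeff, hj', map_zero]
  have hy : (dL d y).support ⊆ y.support := by
    intro j hj hj'
    apply hj
    rw [dL_coeff, hj', map_zero]
  rw [dL_coeff, HahnSeries.coeff_add, HahnSeries.coeff_mul,
    HahnSeries.coeff_mul_left' x.isPWO_support hx, HahnSeries.coeff_mul_right' y.isPWO_support hy,
    map_sum, ← Finset.sum_add_distrib]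
  refine Finset.sum_congr rfl fun q _ => ?_
  rw [dL_coeff, dL_coeff, Derivation.leibniz, smul_eq_mul, smul_eq_mul]
  ring

/-- The coefficientwise extension of a derivation to power series. -/
noncomputable def dPS (d : Derivation k A A) (p : PowerSeries A) : PowerSeries A :=
  PowerSeries.mk fun n => d (PowerSeries.coeff n p)

lemma dL_ofPowerSeries (d : Derivation k A A) (p : PowerSeries A) :
    dL d (HahnSeries.ofPowerSeries ℤ A p) = HahnSeries.ofPowerSeries ℤ A (dPS d p) := by
  ext i
  rw [dL_coeff]
  rcases lt_or_ge i 0 with h | h
  · rw [ops_coeff_neg p h, ops_coeff_neg _ h, map_zero]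
  · obtain ⟨m, rfl⟩ := Int.eq_ofNat_of_zero_le h
    rw [HahnSeries.ofPowerSeries_apply_coeff, HahnSeries.ofPowerSeries_apply_coeff, dPS,
      PowerSeries.coeff_mk]

lemma dL_single (d : Derivation k A A) (n : ℤ) : dL d (HahnSeries.single n 1) = 0 := by
  ext i
  rw [dL_coeff, HahnSeries.coeff_zero]
  by_cases h : i = n
  · subst h
    rw [HahnSeries.coeff_single_same]
    exact d.map_one_eq_zero
  · rw [HahnSeries.coeff_single_of_ne h, map_zero]

lemma dL_single' (d : Derivation k A A) (n : ℤ) (a : A) :
    dL d (HahnSeries.single n a) = HahnSeries.single n (d a) := by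
  ext i
  rw [dL_coeff]
  by_cases h : i = n
  · subst h
    rw [HahnSeries.coeff_single_same, HahnSeries.coeff_single_same]
  · rw [HahnSeries.coeff_single_of_ne h, HahnSeries.coeff_single_of_ne h, map_zero]

lemma dL_comp {dA : Derivation k A A} {dB : Derivation k B B} {φ : A →ₐ[k] B}
    (h : ∀ a, dB (φ a) = φ (dA a)) (x : LaurentSeries A) :
    dL dB (mapL (φ : A →+* B) x) = mapL (φ : A →+* B) (dL dA x) := by
  ext i
  simp only [dL_coeff, mapL_coeff]
  exact h _

/-- The coefficientwise derivation on Laurent series over a field, as a derivation. -/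
theorem exists_derivation_laurent {E : Type*} [Field E] [Algebra k E] (d : Derivation k E E) :
    ∃ d' : Derivation k (LaurentSeries E) (LaurentSeries E), ∀ x, d' x = dL d x := by
  refine ⟨{ toFun := fun x => dL d x
            map_add' := fun x y => map_add _ x y
            map_smul' := fun c x => ?_
            map_one_eq_zero' := ?_
            leibniz' := fun x y => ?_ }, fun x => rfl⟩
  · ext i
    rw [RingHom.id_apply, dL_coeff, HahnSeries.coeff_smul, dL_coeff]
    have h1 : algebraMap k (LaurentSeries E) c = HahnSeries.C (algebraMap k E c) := by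
      rw [HahnSeries.algebraMap_apply', PowerSeries.algebraMap_apply, HahnSeries.ofPowerSeries_C]
    rw [Algebra.smul_def, h1, HahnSeries.C_mul_eq_smul, HahnSeries.coeff_smul, smul_eq_mul,
      ← Algebra.smul_def]
    exact Derivation.map_smul d c _
  · exact dL_single d 0
  · change dL d (x * y) = x * dL d y + y * dL d x
    rw [dL_mul]
    ring

end laurent

section H

variable {k : Type*} [Field k] {f : k[X]} {A B : Type*} [CommRing A] [Algebra k A] [CommRing B]
  [Algebra k B]

variable (f) in
/-- The extension of a derivation over `k` to `H f A`, zero on `x` and `y`. -/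
noncomputable def dH (d : Derivation k A A) : Derivation k (H f A) (H f A) where
  toFun a := ⟨dP d a.re, dP d a.im⟩
  map_add' a b := by ext1 <;> simp
  map_smul' c a := by
    ext1
    · ext n
      simp [Derivation.map_smul]
    · ext n
      simp [Derivation.map_smul]
  map_one_eq_zero' := by
    ext1
    · change dP d (1 : H f A).re = 0
      rw [QuadraticAlgebra.re_one, ← C_1, dP_C, d.map_one_eq_zero, C_0]
    · change dP d (1 : H f A).im = 0
      rw [QuadraticAlgebra.im_one, map_zero]
  leibniz' a b := by
    have h : dP d (fA f A) = 0 := dP_map d f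
    ext1
    · change dP d (a * b).re = (a * (⟨dP d b.re, dP d b.im⟩ : H f A) +
        b * (⟨dP d a.re, dP d a.im⟩ : H f A)).re
      simp only [QuadraticAlgebra.re_mul, map_add, dP_mul, QuadraticAlgebra.re_add, h]
      ring
    · change dP d (a * b).im = (a * (⟨dP d b.re, dP d b.im⟩ : H f A) +
        b * (⟨dP d a.re, dP d a.im⟩ : H f A)).im
      simp only [QuadraticAlgebra.im_mul, map_add, dP_mul, QuadraticAlgebra.im_add, map_zero]
      ring

@[simp] lemma dH_re (d : Derivation k A A) (a : H f A) : (dH f d a).re = dP d a.re := rfl

@[simp] lemma dH_im (d : Derivation k A A) (a : H f A) : (dH f d a).im = dP d a.im := rfl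

lemma dH_comp {dA : Derivation k A A} {dB : Derivation k B B} {φ : A →ₐ[k] B}
    (h : ∀ a, dB (φ a) = φ (dA a)) (a : H f A) :
    dH f dB (mapH f φ a) = mapH f φ (dH f dA a) := by
  ext1 <;> simp [dP_comp h]

lemma lam_dH [HypPoly f] (d : Derivation k A A) (a : H f A) :
    lam f A (dH f d a) = dL d (lam f A a) := by
  have h1 : ∀ p : A[X], evL A (dP d p) = dL d (evL A p) := by
    intro p
    induction p using Polynomial.induction_on' with
    | add a b ha hb => simp only [map_add, ha, hb]
    | monomial e r =>
      have h2 : dP d (monomial e r) = monomial e (d r) := by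
        ext n
        rw [dP_coeff, coeff_monomial, coeff_monomial]
        split_ifs
        · rfl
        · exact map_zero d
      rw [h2, ← C_mul_X_pow_eq_monomial, ← C_mul_X_pow_eq_monomial, evL_C_mul_X_pow,
        evL_C_mul_X_pow, dL_single']
  have h3 : dL d (yL f A) = 0 := by
    unfold yL
    rw [dL_mul, dL_single, zero_mul, zero_add]
    have h4 : dL d (SL f A) = 0 := by
      unfold SL
      rw [dL_ofPowerSeries]
      have h5 : dPS d (PowerSeries.map (algebraMap k A)
          (PowerSeries.expand 2 two_ne_zero (Tser f))) = 0 := by
        ext n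
        rw [dPS, PowerSeries.coeff_mk, PowerSeries.coeff_map, map_zero]
        exact d.map_algebraMap _
      rw [h5, map_zero]
    rw [h4, mul_zero]
  rw [lam_apply, lam_apply, map_add, dL_mul, h3, mul_zero, add_zero, dH_re, dH_im, h1, h1]

variable (f) in
/-- The invariant derivation: zero on `A`, `x ↦ 2 y`, `y ↦ f'(x)`. -/
noncomputable def delta (A : Type*) [CommRing A] [Algebra k A] : Derivation k (H f A) (H f A) where
  toFun a := ⟨2 * fA f A * derivative a.im + derivative (fA f A) * a.im, 2 * derivative a.re⟩
  map_add' a b := by ext1 <;> simp <;> ring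
  map_smul' c a := by
    ext1
    · change 2 * fA f A * derivative (c • a).im + derivative (fA f A) * (c • a).im =
        c • (2 * fA f A * derivative a.im + derivative (fA f A) * a.im)
      rw [QuadraticAlgebra.im_smul, derivative_smul, mul_smul_comm, mul_smul_comm, smul_add]
    · change 2 * derivative (c • a).re = c • (2 * derivative a.re)
      rw [QuadraticAlgebra.re_smul, derivative_smul, mul_smul_comm]
  map_one_eq_zero' := by
    ext1
    · change 2 * fA f A * derivative (1 : H f A).im + derivative (fA f A) * (1 : H f A).im = 0
      rw [QuadraticAlgebra.im_one, derivative_zero, mul_zero, mul_zero, add_zero]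
    · change 2 * derivative (1 : H f A).re = 0
      rw [QuadraticAlgebra.re_one, derivative_one, mul_zero]
  leibniz' a b := by
    ext1
    · change 2 * fA f A * derivative (a * b).im + derivative (fA f A) * (a * b).im =
        (a * (⟨2 * fA f A * derivative b.im + derivative (fA f A) * b.im,
          2 * derivative b.re⟩ : H f A) +
        b * (⟨2 * fA f A * derivative a.im + derivative (fA f A) * a.im,
          2 * derivative a.re⟩ : H f A)).re
      simp only [QuadraticAlgebra.re_mul, QuadraticAlgebra.im_mul, map_add, derivative_mul,
        QuadraticAlgebra.re_add, derivative_zero]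
      ring
    · change 2 * derivative (a * b).re =
        (a * (⟨2 * fA f A * derivative b.im + derivative (fA f A) * b.im,
          2 * derivative b.re⟩ : H f A) +
        b * (⟨2 * fA f A * derivative a.im + derivative (fA f A) * a.im,
          2 * derivative a.re⟩ : H f A)).im
      simp only [QuadraticAlgebra.re_mul, QuadraticAlgebra.im_mul, map_add, derivative_mul,
        QuadraticAlgebra.im_add]
      ring

lemma delta_cH_C (a : A) : delta f A (cH f A (C a)) = 0 := by
  ext1
  · change 2 * fA f A * derivative (cH f A (C a)).im +
      derivative (fA f A) * (cH f A (C a)).im = 0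
    simp
  · change 2 * derivative (cH f A (C a)).re = 0
    simp

lemma delta_xH : delta f A (xH f A) = 2 * yH f A := by
  ext1
  · change 2 * fA f A * derivative (xH f A).im + derivative (fA f A) * (xH f A).im = _
    rw [two_mul (yH f A), QuadraticAlgebra.re_add]
    simp [xH, yH]
  · change 2 * derivative (xH f A).re = _
    rw [two_mul (yH f A), QuadraticAlgebra.im_add]
    simp [xH, yH]
    norm_num

end H

section frac

/-- A derivation of a domain extends to its fraction field. -/
theorem exists_derivation_frac {k R K : Type*} [CommRing k] [CommRing R] [IsDomain R] [Field K]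
    [Algebra k R] [Algebra R K] [Algebra k K] [IsScalarTower k R K] [IsFractionRing R K]
    (d : Derivation k R R) :
    ∃ d' : Derivation k K K, ∀ r : R, d' (algebraMap R K r) = algebraMap R K (d r) := by
  classical
  let g : R →+* DualNumber K :=
    { toFun := fun r => TrivSqZeroExt.inl (algebraMap R K r) +
        TrivSqZeroExt.inr (algebraMap R K (d r))
      map_one' := by
        rw [map_one, d.map_one_eq_zero, map_zero, TrivSqZeroExt.inl_one, TrivSqZeroExt.inr_zero,
          add_zero]
      map_zero' := by
        rw [map_zero, map_zero, map_zero, TrivSqZeroExt.inl_zero, TrivSqZeroExt.inr_zero, add_zero]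
      map_add' := fun a b => by
        ext
        · simp
        · simp only [TrivSqZeroExt.snd_add, TrivSqZeroExt.snd_inl, TrivSqZeroExt.snd_inr, map_add,
            zero_add]
      map_mul' := fun a b => by
        ext
        · simp
        · simp only [TrivSqZeroExt.snd_add, TrivSqZeroExt.snd_inl, TrivSqZeroExt.snd_inr, map_add,
            zero_add, TrivSqZeroExt.snd_mul, TrivSqZeroExt.fst_add, TrivSqZeroExt.fst_inl,
            TrivSqZeroExt.fst_inr, add_zero, Derivation.leibniz, map_mul, smul_eq_mul,
            MulOpposite.smul_eq_mul_unop, MulOpposite.unop_op]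
          ring }
  have hg1 : ∀ r, (g r).fst = algebraMap R K r := fun r => by
    change algebraMap R K r + 0 = _
    rw [add_zero]
  have hg2 : ∀ r, (g r).snd = algebraMap R K (d r) := fun r => by
    change 0 + algebraMap R K (d r) = _
    rw [zero_add]
  have hu : ∀ y : nonZeroDivisors R, IsUnit (g y) := by
    intro y
    rw [TrivSqZeroExt.isUnit_iff_isUnit_fst, hg1]
    exact IsUnit.mk0 _ (IsLocalization.to_map_ne_zero_of_mem_nonZeroDivisors K le_rfl y.2)
  let G : K →+* DualNumber K := IsLocalization.lift hu
  have hG : ∀ r, G (algebraMap R K r) = g r := fun r => IsLocalization.lift_eq hu r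
  have hG1 : ∀ x, (G x).fst = x := by
    intro x
    have h : (TrivSqZeroExt.fstHom K K K : DualNumber K →+* K).comp G = RingHom.id K := by
      apply IsLocalization.ringHom_ext (nonZeroDivisors R)
      ext r
      simp [hG, hg1]
    exact DFunLike.congr_fun h x
  have hmul : ∀ x y, (G (x * y)).snd = x * (G y).snd + y * (G x).snd := by
    intro x y
    rw [map_mul, TrivSqZeroExt.snd_mul, hG1, hG1]
    simp
    ring
  have halg : ∀ c : k, (G (algebraMap k K c)).snd = 0 := by
    intro c
    rw [IsScalarTower.algebraMap_apply k R K, hG, hg2, d.map_algebraMap, map_zero]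
  refine ⟨{ toFun := fun x => (G x).snd
            map_add' := fun x y => ?_
            map_smul' := fun c x => ?_
            map_one_eq_zero' := ?_
            leibniz' := fun x y => ?_ }, fun r => ?_⟩
  · rw [map_add, TrivSqZeroExt.snd_add]
  · change (G (c • x)).snd = c • (G x).snd
    rw [Algebra.smul_def, hmul, halg, mul_zero, add_zero, ← Algebra.smul_def]
  · change (G 1).snd = 0
    rw [map_one, TrivSqZeroExt.snd_one]
  · exact hmul x y
  · change (G (algebraMap R K r)).snd = _
    rw [hG, hg2]

end frac

end Pool.Agent.HypJac
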